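import Pool.Agent.H36.LV.Stm
import Pool.Agent.H36.LX.T.CORE

/-! # LV-CORE: the generic core with local variance (helper39) -/

set_option autoImplicit false

open Finset Filter Topology
open scoped Classical

namespace Pool.Agent.H36.LV.T

open Pool.Agent.H36.LX Pool.Agent.H36.LC Pool.Agent.H36.BK Pool.Agent.H36.BK.LW Pool.Agent.H13R3.WB
  Pool.Agent.H931R3.Bal
open Pool.Agent.H36.BK.CoreAux
open Pool.Agent.H36.LX.T.CoreX

namespace CoreY

variable {α : Type} [Fintype α] [PartialOrder α]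

lemma Hs_nonneg (hfkg : S_fkg) (M : ℕ) (x y : α) (s t : ℕ) : 0 ≤ Hs α M x y s t := by
  have h1 := hfkg α M x y s t
  have h2 : (cnt α M (fun f => f x ≤ s) : ℝ) * cnt α M (fun f => f y ≤ t) ≤
      cnt α M (fun f => f x ≤ s ∧ f y ≤ t) * (Om α M).card := by exact_mod_cast h1
  unfold BK.Hs
  linarith

/-- the sum over a window -/
noncomputable def HW (α : Type) [Fintype α] [PartialOrder α] (M o L : ℕ) (x y : α) : ℝ :=
  ∑ s ∈ Ico o (o + L), ∑ t ∈ Ico o (o + L), Hs α M x y s t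

lemma HW_nonneg (hfkg : S_fkg) (M o L : ℕ) (x y : α) : 0 ≤ HW α M o L x y :=
  sum_nonneg fun _ _ => sum_nonneg fun _ _ => Hs_nonneg hfkg M x y _ _

lemma HW_symm (M o L : ℕ) (x y : α) : HW α M o L x y = HW α M o L y x := by
  rw [HW, HW, sum_comm]
  refine sum_congr rfl fun s _ => sum_congr rfl fun t _ => ?_
  have e : cnt α M (fun f => f x ≤ t ∧ f y ≤ s) = cnt α M (fun f => f y ≤ s ∧ f x ≤ t) := by
    simp only [and_comm]
  unfold BK.Hs
  rw [e]
  ring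

end CoreY

open CoreY in
/-- LV-CORE -/
theorem core : S_covL → S_pairL → Pool.Agent.H34.BL.S_dens1 → Pool.Agent.H34.BL.S_tail1 →
    Pool.Agent.H34.BL.S_grp1 → S_winD → S_corey := by
  intro hcov hpair hdens htail hgrp hwinD α _ _ κ A ε lam c J₀ D r k q hκ hA hAne hcard hε hε1 hD
    hlam hc0 hr hrl hlam3 hDc hk hq hprob
  have hfour : S_four := H82.BK.four
  have huni : S_uni := H82.BK.uni H82.BK.four
  have hfkg : S_fkg := H82.BK.fkg
  have hind : S_ind := ind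
  have hlim : S_lim := lim
  have hκ0 : (0 : ℝ) < κ := by exact_mod_cast hκ
  have hκ1 : (1 : ℝ) ≤ κ := by exact_mod_cast hκ
  have hD0 : (0 : ℝ) < D := by exact_mod_cast hD
  obtain ⟨I, hI⟩ : ∃ I : ℕ, I = Nat.log 2 (2 ^ 16 * κ) := ⟨_, rfl⟩
  have hI2 : 2 ^ (I + 1) ≤ 2 ^ 17 * κ := by
    have h1 : 2 ^ I ≤ 2 ^ 16 * κ := by
      rw [hI]
      exact Nat.pow_log_le_self 2 (by positivity)
    rw [pow_succ]
    omega
  -- the choice of `J₁`
  have hlim' : ∀ᶠ M : ℕ in atTop, ∀ x ∈ A, ∀ y ∈ A, x ≠ y → 2 * ε <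
      |((cnt α M (fun f => f x < f y) : ℝ) - cnt α M (fun f => f y < f x)) / (Om α M).card| := by
    rw [Filter.eventually_all_finset]
    intro x hx
    rw [Filter.eventually_all_finset]
    intro y hy
    by_cases hxy : x = y
    · exact Eventually.of_forall fun M h => absurd hxy h
    · have h1 := (hlim α x y hxy).abs.eventually_const_lt (hprob x hx y hy hxy)
      filter_upwards [h1] with M hM _
      exact hM
  have hev := (hcov α).and ((hdens α κ A hA hAne hcard).and (hlim'.and (eventually_ge_atTop 2)))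
  have h2J : Tendsto (fun J : ℕ => 2 ^ J) atTop atTop :=
    tendsto_pow_atTop_atTop_of_one_lt (by norm_num)
  obtain ⟨J₁, ⟨hcovJ, hdensJ, hlimJ, hM2⟩, hJl, hJr⟩ := ((h2J.eventually hev).and
    ((eventually_ge_atTop (J₀ + I)).and (eventually_ge_atTop (r + I + 1)))).exists
  obtain ⟨M, hMJ⟩ : ∃ M : ℕ, M = 2 ^ J₁ := ⟨_, rfl⟩
  rw [← hMJ] at hcovJ hdensJ hlimJ hM2
  have hM0n : 0 < M := by omega
  have hM0 : (0 : ℝ) < M := by exact_mod_cast hM0n
  have hMc : (M : ℝ) = 2 ^ J₁ := by rw [hMJ]; push_cast; rfl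
  obtain ⟨T, hT⟩ : ∃ T, T = (Om α M).card := ⟨_, rfl⟩
  have hT0 : 0 < T := by rw [hT]; exact Om_pos (by omega)
  have hT0' : (0 : ℝ) < T := by exact_mod_cast hT0
  obtain ⟨G, hG⟩ : ∃ G : Finset α, G = A.filter fun x => ∀ j, Nx α M x j * M ≤
    2 ^ 16 * κ * (Om α M).card := ⟨_, rfl⟩
  rw [← hG] at hdensJ
  have hGA : ∀ x ∈ G, x ∈ A := fun x hx => by rw [hG] at hx; exact (mem_filter.1 hx).1
  have hGN : ∀ x ∈ G, ∀ j, Nx α M x j * M ≤ 2 ^ 16 * κ * T := fun x hx => by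
    rw [hG] at hx
    rw [hT]
    exact (mem_filter.1 hx).2
  -- the modes
  choose m hm using fun x : α => exists_mode huni M x
  have hsumN : ∀ x : α, ∑ j ∈ range M, Nx α M x j = T := fun x => by rw [hT]; exact sum_Nx M x
  have hTN : ∀ x : α, T ≤ Nx α M x (m x) * M := by
    intro x
    rw [← hsumN x]
    calc ∑ j ∈ range M, Nx α M x j ≤ ∑ _j ∈ range M, Nx α M x (m x) :=
          sum_le_sum fun j _ => hm x j
      _ = Nx α M x (m x) * M := by rw [sum_const, card_range, smul_eq_mul, mul_comm]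
  have hNm : ∀ x : α, 0 < Nx α M x (m x) := by
    intro x
    by_contra h
    have h0 : Nx α M x (m x) = 0 := by omega
    have := hTN x
    rw [h0, zero_mul] at this
    omega
  have hmM : ∀ x : α, m x < M := by
    intro x
    by_contra h
    have := hNm x
    rw [Nx_zero (by omega : M ≤ m x)] at this
    exact lt_irrefl _ this
  -- the classes
  obtain ⟨Q, hQ⟩ : ∃ Q : α → ℕ, ∀ x, Q x = Nx α M x (m x) * M / T := ⟨_, fun _ => rfl⟩
  have hQ1 : ∀ x, 1 ≤ Q x := by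
    intro x
    rw [hQ x, Nat.le_div_iff_mul_le hT0, one_mul]
    exact hTN x
  have hQK : ∀ x ∈ G, Q x ≤ 2 ^ 16 * κ := by
    intro x hx
    rw [hQ x]
    exact Nat.div_le_of_le_mul (by rw [mul_comm T]; exact hGN x hx (m x))
  obtain ⟨i, hi⟩ : ∃ i : α → ℕ, ∀ x, i x = Nat.log 2 (Q x) := ⟨_, fun _ => rfl⟩
  have hiI : ∀ x ∈ G, i x ≤ I := by
    intro x hx
    rw [hi x, hI]
    exact Nat.log_mono_right (hQK x hx)
  have hiT : ∀ x, 2 ^ i x * T ≤ Nx α M x (m x) * M := by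
    intro x
    have h1 : 2 ^ i x ≤ Q x := by
      rw [hi x]
      exact Nat.pow_log_le_self 2 (by have := hQ1 x; omega)
    rw [hQ x, Nat.le_div_iff_mul_le hT0] at h1
    exact h1
  have hiT2 : ∀ x, Nx α M x (m x) * M ≤ 2 ^ (i x + 1) * T := by
    intro x
    have h1 : Q x < 2 ^ (i x + 1) := by
      rw [hi x]
      exact Nat.lt_pow_succ_log_self (by norm_num) _
    rw [hQ x, Nat.div_lt_iff_lt_mul hT0] at h1
    exact h1.le
  have hv : ∀ x ∈ G, m x / 2 ^ (J₁ - i x) < 2 ^ i x := by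
    intro x hx
    rw [Nat.div_lt_iff_lt_mul (by positivity), ← pow_add]
    have h1 := hiI x hx
    rw [show i x + (J₁ - i x) = J₁ by omega, ← hMJ]
    exact hmM x
  obtain ⟨i₀, v₀, hi₀, hv₀, hGG⟩ := hgrp α G I i (fun x => m x / 2 ^ (J₁ - i x))
    (fun x hx => ⟨hiI x hx, hv x hx⟩)
  obtain ⟨G', hG'⟩ : ∃ G' : Finset α, G' = G.filter fun x => i x = i₀ ∧
    m x / 2 ^ (J₁ - i x) = v₀ := ⟨_, rfl⟩
  rw [← hG'] at hGG
  have hG'G : ∀ x ∈ G', x ∈ G := fun x hx => by rw [hG'] at hx; exact (mem_filter.1 hx).1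
  have hG'i : ∀ x ∈ G', i x = i₀ ∧ m x / 2 ^ (J₁ - i₀) = v₀ := fun x hx => by
    rw [hG'] at hx
    have h1 := (mem_filter.1 hx).2
    refine ⟨h1.1, ?_⟩
    have h2 := h1.2
    rw [h1.1] at h2
    exact h2
  have hGG' : G.card ≤ 2 ^ 17 * κ * G'.card := hGG.trans (Nat.mul_le_mul_right _ hI2)
  -- the masses
  have hunim : ∀ x, Unim (pm α M x) := by
    intro x
    obtain ⟨m, h1, h2⟩ := huni α M x
    refine ⟨m, fun i j hij hj => ?_, fun i j hi hij => ?_⟩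
    · have := h1 i j hij hj
      rw [pm, pm]
      gcongr
    · have := h2 i j hi hij
      rw [pm, pm]
      gcongr
  have hlcc : ∀ x, LCc (pm α M x) := by
    intro x a b c d hab hac habcd
    have h1 := hfour α M x a b c d hab hac habcd
    have h2 : (Nx α M x a : ℝ) * Nx α M x d ≤ Nx α M x b * Nx α M x c := by exact_mod_cast h1
    rw [pm, pm, pm, pm, div_mul_div_comm, div_mul_div_comm]
    exact div_le_div_of_nonneg_right h2 (by positivity)
  have hpm0 : ∀ x s, 0 ≤ pm α M x s := fun x s => by rw [pm]; positivity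
  have hpmM : ∀ x s, M ≤ s → pm α M x s = 0 := fun x s hs => by
    rw [pm, Nx_zero hs, Nat.cast_zero, zero_div]
  have hpm1 : ∀ x, ∑ s ∈ range M, pm α M x s = 1 := fun x => sum_pm (by omega) x
  have hr0 : (0 : ℝ) < 2 ^ r := by positivity
  have h2K : 4 * (2 : ℝ) ^ (q + 1) / 2 ^ r ≤ ε / 4 := by
    rw [div_le_iff₀ hε] at hr
    rw [div_le_iff₀ hr0]
    have e1 : (2 : ℝ) ^ (q + 5) = 16 * 2 ^ (q + 1) := by ring
    rw [e1] at hr
    linarith
  -- the window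
  have hi₀J : i₀ ≤ J₁ := by omega
  obtain ⟨B, hB⟩ : ∃ B : ℕ, B = 2 ^ (J₁ - i₀) := ⟨_, rfl⟩
  have hB0 : 0 < B := by rw [hB]; positivity
  have hMB : M = 2 ^ i₀ * B := by
    rw [hMJ, hB, ← pow_add]
    congr 1
    omega
  obtain ⟨J, hJ⟩ : ∃ J : ℕ, J = J₁ - i₀ + q := ⟨_, rfl⟩
  have hLB : 2 ^ J = B * 2 ^ q := by rw [hJ, hB, pow_add]
  obtain ⟨o, ho⟩ : ∃ o : ℕ, o = v₀ * B - k * (2 * B) := ⟨_, rfl⟩
  obtain ⟨θ, hθ⟩ : ∃ θ : ℝ, θ = 2 / 2 ^ k := ⟨_, rfl⟩
  have hk0 : (0 : ℝ) < 2 ^ k := by positivity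
  have hθ0 : 0 ≤ θ := by rw [hθ]; positivity
  have hθε : θ ≤ ε / 64 := by
    rw [hθ, div_le_div_iff₀ hk0 (by norm_num)]
    rw [div_le_iff₀ hε] at hk
    linarith
  have hmass : ∀ x ∈ G', 1 - θ ≤ ∑ s ∈ range (2 ^ J), pm α M x (o + s) := by
    intro x hx
    obtain ⟨hix, hvx⟩ := hG'i x hx
    rw [hθ]
    have h2T : 2 * ∑ j ∈ range M, Nx α M x j ≤ Nx α M x (m x) * (2 * B) := by
      rw [hsumN x]
      have h1 := hiT x
      rw [hix, hMB] at h1
      have h2 : 2 ^ i₀ * T ≤ 2 ^ i₀ * (Nx α M x (m x) * B) := by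
        calc 2 ^ i₀ * T ≤ Nx α M x (m x) * (2 ^ i₀ * B) := by
              have h1' := hiT x
              rw [hix] at h1'
              calc 2 ^ i₀ * T ≤ Nx α M x (m x) * M := h1'
                _ = Nx α M x (m x) * (2 ^ i₀ * B) := by rw [← hMB]
          _ = 2 ^ i₀ * (Nx α M x (m x) * B) := by ring
      have h3 : T ≤ Nx α M x (m x) * B := Nat.le_of_mul_le_mul_left h2 (by positivity)
      calc 2 * T ≤ 2 * (Nx α M x (m x) * B) := Nat.mul_le_mul_left 2 h3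
        _ = Nx α M x (m x) * (2 * B) := by ring
    have ht := htail (Nx α M x) M (m x) (2 * B) k (fun j hj => Nx_zero hj)
      (fun a b c d => hfour α M x a b c d) (hm x) (hNm x) h2T
    rw [hsumN x] at ht
    have hw := window_mass (Nx α M x) M (m x) (2 * B) k o (2 ^ J) T (hsumN x) hT0 ht (by
      intro j hj
      push Not at hj
      obtain ⟨hj1, hj2⟩ := hj
      have hvB1 : v₀ * B ≤ m x := by
        rw [← hvx, hB]
        exact Nat.div_mul_le_self _ _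
      have hvB2 : m x < (v₀ + 1) * B := by
        rw [← hvx, hB]
        exact (Nat.div_lt_iff_lt_mul (by positivity)).1 (Nat.lt_succ_self _)
      have hL : (1 + 4 * k) * B ≤ 2 ^ J := by
        rw [hLB, mul_comm B]
        exact Nat.mul_le_mul_right B hq
      have e1 : (1 + 4 * k) * B = B + 2 * (k * (2 * B)) := by ring
      have e2 : (v₀ + 1) * B = v₀ * B + B := by ring
      rw [e1] at hL
      rw [e2] at hvB2
      rw [ho]
      constructor
      · omega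
      · omega)
    refine hw.trans (le_of_eq ?_)
    refine sum_congr rfl fun s _ => ?_
    rw [pm, ← hT]
  have hbound : ∀ x ∈ G', ∀ s, pm α M x s * ((2 ^ J : ℕ) : ℝ) ≤ 2 ^ (q + 1) := by
    intro x hx s
    obtain ⟨hix, hvx⟩ := hG'i x hx
    have h1 : Nx α M x s * M ≤ 2 ^ (i₀ + 1) * T := by
      have h2 := hiT2 x
      rw [hix] at h2
      exact (Nat.mul_le_mul_right M (hm x s)).trans h2
    have h2 : Nx α M x s * 2 ^ J ≤ 2 ^ (q + 1) * T := by
      have h3 : 2 ^ i₀ * (Nx α M x s * 2 ^ J) ≤ 2 ^ i₀ * (2 ^ (q + 1) * T) := by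
        calc 2 ^ i₀ * (Nx α M x s * 2 ^ J) = Nx α M x s * (2 ^ i₀ * B) * 2 ^ q := by
              rw [hLB]; ring
          _ = Nx α M x s * M * 2 ^ q := by rw [← hMB]
          _ ≤ 2 ^ (i₀ + 1) * T * 2 ^ q := Nat.mul_le_mul_right _ h1
          _ = 2 ^ i₀ * (2 ^ (q + 1) * T) := by ring
      exact Nat.le_of_mul_le_mul_left h3 (by positivity)
    have h3 : (Nx α M x s : ℝ) * ((2 ^ J : ℕ) : ℝ) ≤ 2 ^ (q + 1) * T := by exact_mod_cast h2
    rw [pm, ← hT, div_mul_eq_mul_div, div_le_iff₀ hT0']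
    exact h3
  -- the bad pairs
  obtain ⟨Bd, hBd⟩ : ∃ Bd : Finset (α × α), Bd = (G' ×ˢ G').filter fun u => u.1 ≠ u.2 ∧
    c * ((2 ^ J : ℕ) : ℝ) ^ 2 * (T : ℝ) ^ 2 < HW α M o (2 ^ J) u.1 u.2 := ⟨_, rfl⟩
  have hBd1 : (Bd.card : ℝ) * (c * ((2 ^ J : ℕ) : ℝ) ^ 2 * (T : ℝ) ^ 2) ≤
      (Fintype.card α : ℝ) * ((2 ^ J : ℕ) : ℝ) ^ 2 * (T : ℝ) ^ 2 := by
    calc (Bd.card : ℝ) * (c * ((2 ^ J : ℕ) : ℝ) ^ 2 * (T : ℝ) ^ 2)
        = ∑ _u ∈ Bd, c * ((2 ^ J : ℕ) : ℝ) ^ 2 * (T : ℝ) ^ 2 := by rw [sum_const, nsmul_eq_mul]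
      _ ≤ ∑ u ∈ Bd, HW α M o (2 ^ J) u.1 u.2 := by
          apply sum_le_sum
          intro u hu
          rw [hBd] at hu
          exact (mem_filter.1 hu).2.2.le
      _ ≤ ∑ u : α × α, HW α M o (2 ^ J) u.1 u.2 :=
          sum_le_sum_of_subset_of_nonneg (subset_univ _) fun u _ _ => HW_nonneg hfkg M o (2 ^ J) u.1 u.2
      _ = ∑ x : α, ∑ y : α, HW α M o (2 ^ J) x y := Fintype.sum_prod_type _
      _ ≤ _ := by rw [hT]; exact hcovJ o (2 ^ J)
  have hBd2 : Bd.card ≤ D * G'.card := by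
    have h1 : (Bd.card : ℝ) * c ≤ (Fintype.card α : ℝ) := by
      have h2 : 0 < ((2 ^ J : ℕ) : ℝ) ^ 2 * (T : ℝ) ^ 2 := by positivity
      refine le_of_mul_le_mul_right ?_ h2
      linarith
    have h3 : (Fintype.card α : ℝ) ≤ κ * A.card := by exact_mod_cast hcard
    have h4 : (A.card : ℝ) ≤ 6 * G.card := by exact_mod_cast hdensJ
    have h4' : (G.card : ℝ) ≤ 2 ^ 17 * κ * G'.card := by exact_mod_cast hGG'
    have h5 : (Fintype.card α : ℝ) ≤ 2 ^ 20 * (κ : ℝ) ^ 2 * G'.card := by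
      have h6 : (κ : ℝ) * A.card ≤ κ * (6 * (2 ^ 17 * κ * G'.card)) := by
        apply mul_le_mul_of_nonneg_left _ hκ0.le
        linarith
      have h7 : (κ : ℝ) * (6 * (2 ^ 17 * κ * G'.card)) = 6 * (2 ^ 17 * (κ : ℝ) ^ 2 * G'.card) := by
        ring
      have h8 : 0 ≤ (κ : ℝ) ^ 2 * G'.card := by positivity
      linarith
    have h6 : 2 ^ 20 * (κ : ℝ) ^ 2 * G'.card ≤ D * c * G'.card :=
      mul_le_mul_of_nonneg_right hDc (Nat.cast_nonneg _)
    have h7 : (Bd.card : ℝ) ≤ D * G'.card := by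
      refine le_of_mul_le_mul_right ?_ hc0
      calc (Bd.card : ℝ) * c ≤ D * c * G'.card := by linarith
        _ = D * G'.card * c := by ring
    exact_mod_cast h7
  obtain ⟨S, hSG, hS1, hS2⟩ := hind α G' (fun x y => c * ((2 ^ J : ℕ) : ℝ) ^ 2 * (T : ℝ) ^ 2 < HW α M o (2 ^ J) x y) D
    (fun x y h => by rw [HW_symm]; exact h) (by rw [hBd] at hBd2; exact hBd2)
  have hwin := fun (x : α) (hx : x ∈ G') (y : α) (hy : y ∈ G') =>
    hwinD M o (2 ^ J) (pm α M x) (pm α M y) θ (2 ^ (q + 1)) hM0n Nat.one_le_two_pow hθ0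
      (by linarith) (hpm0 x) (hpm0 y) (hpmM x) (hpmM y) (hpm1 x) (hpm1 y) (hunim x) (hlcc x)
      (hmass x hx) (hmass y hy) (hbound x hx)
  refine ⟨S, fun x => winD o (2 ^ J) (pm α M x), J, by omega, ?_, ?_, ?_⟩
  · have h2 : A.card ≤ 6 * (2 ^ 17 * κ * (2 * (2 * D + 1) * S.card)) :=
      hdensJ.trans (Nat.mul_le_mul_left 6 (hGG'.trans (Nat.mul_le_mul_left _ hS2)))
    have h3 : (A.card : ℝ) ≤ 6 * (2 ^ 17 * κ * (2 * (2 * D + 1) * S.card)) := by exact_mod_cast h2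
    refine h3.trans (le_of_eq ?_)
    ring
  · intro x hx
    obtain ⟨⟨h1, h2, h3, h4, h5⟩, _⟩ := hwin x (hSG hx) x (hSG hx)
    refine ⟨h1, h2, fun s => (h3 s).trans (le_of_eq ?_), h4, h5⟩
    push_cast
    ring
  · intro x hx y hy hxy
    have h1 := hpair α M o (2 ^ J) (2 ^ r) (2 ^ (J - r)) x y (2 ^ (q + 1)) c lam θ (by omega)
      (by
        calc 2 = 2 ^ 1 := rfl
          _ ≤ 2 ^ J := Nat.pow_le_pow_right (by norm_num) (by omega))
      (by rw [← pow_add]; congr 1; omega) Nat.one_le_two_pow Nat.one_le_two_pow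
      (one_le_pow₀ (by norm_num)) hc0.le hθ0 (by linarith)
      (hbound x (hSG hx)) (hbound y (hSG hy)) (hmass x (hSG hx)) (hmass y (hSG hy)) (by
        have := hS1 x hx y hy hxy
        rw [← hT]
        exact not_lt.1 this) hlam (by
        have e1 : 2 * (2 : ℝ) ^ (q + 1) = 2 ^ (q + 2) := by ring
        have e2 : 8 * θ = 16 / 2 ^ k := by rw [hθ]; ring
        rw [e1, e2]
        exact hlam3)
    have h2 := hlimJ x (hGA x (hG'G x (hSG hx))) y (hGA y (hG'G y (hSG hy))) hxy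
    push_cast at h1
    obtain ⟨z, hz⟩ : ∃ z, z = ((cnt α M (fun f => f x < f y) : ℝ) - cnt α M (fun f => f y < f x)) /
      (Om α M).card := ⟨_, rfl⟩
    rw [← hz] at h1 h2
    obtain ⟨ω, hω⟩ : ∃ ω, ω = om (2 ^ J) (winD o (2 ^ J) (pm α M x)) (winD o (2 ^ J) (pm α M y)) :=
      ⟨_, rfl⟩
    rw [← hω] at h1
    show ε ≤ |om (2 ^ J) (winD o (2 ^ J) (pm α M x)) (winD o (2 ^ J) (pm α M y))|
    rw [← hω]
    have h3 : |z| ≤ |z - ω| + |ω| := by
      have := abs_add_le (z - ω) ω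
      rwa [sub_add_cancel] at this
    linarith


end Pool.Agent.H36.LV.T
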