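import Pool.Agent.H36.LV.Stm
import Pool.Agent.H36.BK.BK05
import Pool.Agent.H36.BK.BK07
import Pool.Agent.H96.BK.Var

/-! # LV-COV: local variance (helper94, after H96/BK/Var.lean and H36/BK/BK07.lean) -/

set_option autoImplicit false

open Finset Filter Topology
open scoped Classical

namespace Pool.Agent.H36.LV.T

open Pool.Agent.H36.LX Pool.Agent.H36.LC Pool.Agent.H36.BK Pool.Agent.H36.BK.LW
  Pool.Agent.H13R3.WB Pool.Agent.H931R3.Bal

namespace COVx

/-- number of the points of the window which are at least `v` -/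
noncomputable def ps (R : Finset ℕ) (v : ℕ) : ℝ := ∑ s ∈ R, if v ≤ s then (1 : ℝ) else 0

theorem ps_nonneg (R : Finset ℕ) (v : ℕ) : 0 ≤ ps R v :=
  sum_nonneg fun s _ => by split_ifs <;> norm_num

theorem ps_le (R : Finset ℕ) (v : ℕ) : ps R v ≤ R.card := by
  unfold ps
  calc ∑ s ∈ R, (if v ≤ s then (1 : ℝ) else 0) ≤ ∑ _s ∈ R, (1 : ℝ) :=
        sum_le_sum fun s _ => by split_ifs <;> norm_num
    _ = _ := by rw [sum_const, nsmul_eq_mul, mul_one]

theorem total (α : Type) [Fintype α] [PartialOrder α] (M : ℕ) (R : Finset ℕ) :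
    ∑ x : α, ∑ y : α, ∑ s ∈ R, ∑ t ∈ R, Hs α M x y s t =
      (Om α M).card * (∑ f ∈ Om α M, (∑ x, ps R (f x)) ^ 2) -
        (∑ f ∈ Om α M, ∑ x, ps R (f x)) ^ 2 := by
  have h1 : ∑ f ∈ Om α M, (∑ x, ps R (f x)) ^ 2 =
      ∑ x : α, ∑ y : α, ∑ s ∈ R, ∑ t ∈ R,
        (cnt α M (fun f => f x ≤ s ∧ f y ≤ t) : ℝ) := by
    have e1 : ∑ f ∈ Om α M, (∑ x, ps R (f x)) ^ 2 =
        ∑ f ∈ Om α M, ∑ x : α, ∑ y : α, ∑ s ∈ R, ∑ t ∈ R,
          (if f x ≤ s then (1 : ℝ) else 0) * (if f y ≤ t then (1 : ℝ) else 0) := by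
      refine sum_congr rfl fun f _ => ?_
      unfold ps
      rw [sq, P07.prod_sums]
    rw [e1, sum_comm]
    refine sum_congr rfl fun x _ => ?_
    rw [sum_comm]
    refine sum_congr rfl fun y _ => ?_
    rw [sum_comm]
    refine sum_congr rfl fun s _ => ?_
    rw [sum_comm]
    refine sum_congr rfl fun t _ => ?_
    rw [P07.cnt_cast]
    refine sum_congr rfl fun f _ => ?_
    by_cases h1 : f x ≤ s <;> by_cases h2 : f y ≤ t <;> simp [h1, h2]
  have h2 : ∑ f ∈ Om α M, ∑ x, ps R (f x) =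
      ∑ x : α, ∑ s ∈ R, (cnt α M (fun f => f x ≤ s) : ℝ) := by
    unfold ps
    rw [sum_comm]
    refine sum_congr rfl fun x _ => ?_
    rw [sum_comm]
    refine sum_congr rfl fun s _ => ?_
    rw [P07.cnt_cast]
    refine sum_congr rfl fun f _ => ?_
    by_cases h1 : f x ≤ s <;> simp [h1]
  rw [h1, h2, sq, P07.prod_sums, Finset.mul_sum, ← Finset.sum_sub_distrib]
  refine sum_congr rfl fun x _ => ?_
  rw [Finset.mul_sum, ← Finset.sum_sub_distrib]
  refine sum_congr rfl fun y _ => ?_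
  rw [Finset.mul_sum, ← Finset.sum_sub_distrib]
  refine sum_congr rfl fun s _ => ?_
  rw [Finset.mul_sum, ← Finset.sum_sub_distrib]
  refine sum_congr rfl fun t _ => ?_
  unfold Pool.Agent.H36.BK.Hs
  ring

theorem iidg (α : Type) [Fintype α] (M : ℕ) (g : ℕ → ℝ) (V : ℝ)
    (hg1 : ∑ v ∈ range M, g v = 0) (hg2 : ∑ v ∈ range M, g v * g v = M * V) :
    ∑ f ∈ Fm α M, (∑ z, g (f z)) ^ 2 = (M : ℝ) ^ Fintype.card α * (Fintype.card α * V) := by
  have hpair : ∀ z z' : α, ∑ f ∈ Fm α M, g (f z) * g (f z') =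
      if z = z' then V * (M : ℝ) ^ Fintype.card α else 0 := by
    intro z z'
    have e1 : ∀ f : α → ℕ, g (f z) * g (f z') =
        ∏ u, ((if u = z then g (f u) else 1) * (if u = z' then g (f u) else 1)) := by
      intro f
      rw [Finset.prod_mul_distrib, Finset.prod_ite_eq' univ z, Finset.prod_ite_eq' univ z',
        if_pos (mem_univ z), if_pos (mem_univ z')]
    rw [Finset.sum_congr rfl fun f _ => e1 f]
    have e2 := Finset.prod_univ_sum (fun _ : α => range M)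
      (fun u v => (if u = z then g v else 1) * (if u = z' then g v else 1))
    show ∑ f ∈ Fintype.piFinset fun _ => range M, _ = _
    rw [← e2]
    split_ifs with h
    · subst h
      have e3 : ∀ u : α, ∑ v ∈ range M, ((if u = z then g v else 1) * (if u = z then g v else 1)) =
          (if u = z then V else 1) * M := by
        intro u
        split_ifs with hu
        · rw [hg2]; ring
        · simp
      rw [Finset.prod_congr rfl fun u _ => e3 u, Finset.prod_mul_distrib,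
        Finset.prod_ite_eq' univ z, if_pos (mem_univ z), Finset.prod_const, card_univ]
    · refine Finset.prod_eq_zero (mem_univ z) ?_
      rw [← hg1]
      refine Finset.sum_congr rfl fun v _ => ?_
      rw [if_pos rfl, if_neg h, mul_one]
  have e4 : ∀ f : α → ℕ, (∑ z, g (f z)) ^ 2 = ∑ z, ∑ z', g (f z) * g (f z') := by
    intro f
    rw [sq, Finset.sum_mul_sum]
  rw [Finset.sum_congr rfl fun f _ => e4 f, Finset.sum_comm]
  have e5 : ∀ z : α, ∑ f ∈ Fm α M, ∑ z', g (f z) * g (f z') = V * (M : ℝ) ^ Fintype.card α := by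
    intro z
    rw [Finset.sum_comm, Finset.sum_congr rfl fun z' _ => hpair z z']
    simp
  rw [Finset.sum_congr rfl fun z _ => e5 z, Finset.sum_const, card_univ, nsmul_eq_mul]
  ring

theorem fiber {α : Type} [Fintype α] (φ : ℕ → ℝ) (X : Finset (α → ℕ)) (M c : ℕ) (hX : ∀ f ∈ X, ∀ z, f z < M)
    (hc : ∀ t : Finset ℕ, t ⊆ range M → t.card = Fintype.card α →
      (X.filter fun f => Function.Injective f ∧ univ.image f = t).card = c) :
    ∑ f ∈ X.filter fun f => Function.Injective f, (∑ z, φ (f z)) ^ 2 =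
      c * ∑ t ∈ powersetCard (Fintype.card α) (range M), (∑ v ∈ t, φ v) ^ 2 := by
  rw [← sum_fiberwise_of_maps_to (s := X.filter fun f => Function.Injective f)
    (t := powersetCard (Fintype.card α) (range M)) (g := fun f => univ.image f)]
  · rw [mul_sum]
    refine sum_congr rfl fun t ht => ?_
    obtain ⟨ht1, ht2⟩ := mem_powersetCard.1 ht
    rw [← hc t ht1 ht2]
    have e1 : (X.filter fun f => Function.Injective f).filter (fun f => univ.image f = t) =
        X.filter fun f => Function.Injective f ∧ univ.image f = t := filter_filter _ _ _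
    rw [e1]
    rw [← nsmul_eq_mul, ← sum_const]
    refine sum_congr rfl fun f hf => ?_
    obtain ⟨-, hf1, hf2⟩ := mem_filter.1 hf
    rw [← hf2, sum_image (fun x _ y _ h => hf1 h)]
  · intro f hf
    obtain ⟨hf1, hf2⟩ := mem_filter.1 hf
    rw [mem_powersetCard]
    constructor
    · intro v hv
      obtain ⟨z, -, rfl⟩ := mem_image.1 hv
      exact mem_range.2 (hX f hf1 z)
    · rw [card_image_of_injective _ hf2, card_univ]

theorem var (α : Type) [Fintype α] [PartialOrder α] : ∀ᶠ M : ℕ in atTop, ∀ (φ : ℕ → ℝ) (L : ℝ), 0 ≤ L →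
    ∑ v ∈ range M, φ v = 0 → ∑ v ∈ range M, φ v * φ v ≤ M * (L ^ 2 / 4) → (∀ v < M, |φ v| ≤ L) →
    ∑ f ∈ Om α M, (∑ z, φ (f z)) ^ 2 ≤ (Fintype.card α : ℝ) * L ^ 2 * (Om α M).card := by
  obtain ⟨n, hn⟩ : ∃ n, n = Fintype.card α := ⟨_, rfl⟩
  have hN : (0 : ℝ) < eN α := by exact_mod_cast VarAux.eN_pos α
  have hfac : (0 : ℝ) < n.factorial := by exact_mod_cast n.factorial_pos
  have h1 : Tendsto (fun M : ℕ => (eN α : ℝ) / (4 * n.factorial) + n *
      ((((Om α M).filter fun f => ¬ Function.Injective f).card : ℝ) / (M : ℝ) ^ n)) atTop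
      (𝓝 ((eN α : ℝ) / (4 * n.factorial) + n * 0)) := by
    have := tendsto_noninj (α := α)
    rw [← hn] at this
    exact (this.const_mul _).const_add _
  have h2 : Tendsto (fun M : ℕ => (eN α : ℝ) * ((M.choose n : ℝ) / (M : ℝ) ^ n)) atTop
      (𝓝 ((eN α : ℝ) * (1 / n.factorial))) := (tendsto_choose n).const_mul _
  have h3 : (eN α : ℝ) / (4 * n.factorial) + n * 0 < (eN α : ℝ) * (1 / n.factorial) := by
    rw [mul_zero, add_zero, mul_one_div]
    apply div_lt_div_of_pos_left hN (by positivity)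
    linarith
  filter_upwards [h1.eventually_lt h2 h3, eventually_ge_atTop 1] with M hM hM1
  intro φ L hL hφ1 hφ2 hφ3
  have hM0 : (0 : ℝ) < M := by exact_mod_cast hM1
  have hMn : (0 : ℝ) < (M : ℝ) ^ n := by positivity
  obtain ⟨P, hP⟩ : ∃ P : ℝ, P = ∑ t ∈ powersetCard (Fintype.card α) (range M), (∑ v ∈ t, φ v) ^ 2 := ⟨_, rfl⟩
  have hA := fiber φ (Om α M) M (eN α) (fun f hf => (mem_Om.1 hf).1)
    (fun t ht1 ht2 => (img α M t ht1 ht2).1)
  have hB := fiber φ (Fm α M) M (Fintype.card α).factorial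
    (fun f hf z => by
      rw [Fm, Fintype.mem_piFinset] at hf
      exact mem_range.1 (hf z))
    (fun t ht1 ht2 => (img α M t ht1 ht2).2)
  rw [← hP] at hA hB
  rw [← hn] at hB
  have hV : (∑ v ∈ range M, φ v * φ v) / M ≤ L ^ 2 / 4 := by
    rw [div_le_iff₀ hM0]; linarith
  have hB1 : (n.factorial : ℝ) * P ≤ (M : ℝ) ^ n * (n * (L ^ 2 / 4)) := by
    rw [← hB]
    calc ∑ f ∈ (Fm α M).filter fun f => Function.Injective f, (∑ z, φ (f z)) ^ 2
        ≤ ∑ f ∈ Fm α M, (∑ z, φ (f z)) ^ 2 :=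
          sum_le_sum_of_subset_of_nonneg (filter_subset _ _) fun f _ _ => sq_nonneg _
      _ = (M : ℝ) ^ n * (n * ((∑ v ∈ range M, φ v * φ v) / M)) := by
          rw [iidg α M φ ((∑ v ∈ range M, φ v * φ v) / M) hφ1 (by field_simp), ← hn]
      _ ≤ _ := by
          have : (0 : ℝ) ≤ n := Nat.cast_nonneg n
          gcongr
  have hsplit : ∑ f ∈ Om α M, (∑ z, φ (f z)) ^ 2 =
      ∑ f ∈ (Om α M).filter fun f => Function.Injective f, (∑ z, φ (f z)) ^ 2 +
      ∑ f ∈ (Om α M).filter fun f => ¬ Function.Injective f, (∑ z, φ (f z)) ^ 2 :=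
    (sum_filter_add_sum_filter_not _ _ _).symm
  have hC : ∑ f ∈ (Om α M).filter (fun f => ¬ Function.Injective f), (∑ z, φ (f z)) ^ 2 ≤
      (((Om α M).filter fun f => ¬ Function.Injective f).card : ℝ) * ((n : ℝ) * L) ^ 2 := by
    rw [← nsmul_eq_mul, ← sum_const]
    refine sum_le_sum fun f hf => ?_
    have hf1 := (mem_Om.1 (mem_filter.1 hf).1).1
    have h4 : |∑ z, φ (f z)| ≤ n * L := by
      calc |∑ z, φ (f z)| ≤ ∑ z, |φ (f z)| := abs_sum_le_sum_abs _ _
        _ ≤ ∑ _z : α, L := sum_le_sum fun z _ => hφ3 _ (hf1 z)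
        _ = n * L := by rw [sum_const, card_univ, nsmul_eq_mul, hn]
    exact sq_le_sq' (neg_le_of_abs_le h4) (le_of_abs_le h4)
  have hOm : (eN α : ℝ) * M.choose n ≤ (Om α M).card := by
    rw [card_Om_split (α := α) M, ← hn]
    push_cast
    have : (0 : ℝ) ≤ (((Om α M).filter fun f => ¬ Function.Injective f).card : ℝ) :=
      Nat.cast_nonneg _
    linarith
  obtain ⟨ni, hni⟩ : ∃ ni : ℝ, ni = (((Om α M).filter fun f => ¬ Function.Injective f).card : ℝ) :=
    ⟨_, rfl⟩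
  rw [← hni] at hM hC
  rw [hsplit, hA, ← hn]
  have hA1 : (eN α : ℝ) * P ≤ (M : ℝ) ^ n * (n * L ^ 2) * (eN α / (4 * n.factorial)) := by
    have h4 : P ≤ (M : ℝ) ^ n * (n * (L ^ 2 / 4)) / n.factorial := by
      rw [le_div_iff₀ hfac]
      linarith
    calc (eN α : ℝ) * P ≤ eN α * ((M : ℝ) ^ n * (n * (L ^ 2 / 4)) / n.factorial) := by gcongr
      _ = _ := by field_simp
  calc (eN α : ℝ) * P + ∑ f ∈ (Om α M).filter (fun f => ¬ Function.Injective f), (∑ z, φ (f z)) ^ 2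
      ≤ (M : ℝ) ^ n * (n * L ^ 2) * (eN α / (4 * n.factorial)) + ni * ((n : ℝ) * L) ^ 2 :=
        add_le_add hA1 hC
    _ = (M : ℝ) ^ n * (n * L ^ 2) * ((eN α : ℝ) / (4 * n.factorial) + n *
        (ni / (M : ℝ) ^ n)) := by field_simp
    _ ≤ (M : ℝ) ^ n * (n * L ^ 2) * ((eN α : ℝ) * ((M.choose n : ℝ) / (M : ℝ) ^ n)) := by
        gcongr
    _ = (n : ℝ) * L ^ 2 * (eN α * M.choose n) := by field_simp
    _ ≤ (n : ℝ) * L ^ 2 * (Om α M).card := by gcongr

end COVx

open COVx in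
theorem cov : S_covL := by
  intro α _ _
  filter_upwards [COVx.var α, eventually_ge_atTop 1] with M hM hM1
  intro o L
  have hM0 : (0 : ℝ) < M := by exact_mod_cast hM1
  obtain ⟨R, hR⟩ : ∃ R : Finset ℕ, R = Ico o (o + L) := ⟨_, rfl⟩
  have hRc : (R.card : ℝ) = L := by rw [hR, Nat.card_Ico, Nat.add_sub_cancel_left]
  rw [← hR, COVx.total]
  obtain ⟨m, hm⟩ : ∃ m : ℝ, m = (∑ v ∈ range M, ps R v) / M := ⟨_, rfl⟩
  have hm' : ∑ v ∈ range M, ps R v = M * m := by rw [hm]; field_simp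
  refine (P07.var_le _ _ ((Fintype.card α : ℝ) * m)).trans ?_
  have h1 : ∑ f ∈ Om α M, (∑ x, ps R (f x) - (Fintype.card α : ℝ) * m) ^ 2 =
      ∑ f ∈ Om α M, (∑ z, (ps R (f z) - m)) ^ 2 := by
    refine sum_congr rfl fun f _ => ?_
    rw [Finset.sum_sub_distrib, sum_const, nsmul_eq_mul, Finset.card_univ]
  rw [h1]
  have hps : ∀ v, 0 ≤ ps R v ∧ ps R v ≤ L := fun v => ⟨ps_nonneg R v, by rw [← hRc]; exact ps_le R v⟩
  have hm0 : 0 ≤ m := by
    rw [hm]
    exact div_nonneg (sum_nonneg fun v _ => (hps v).1) hM0.le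
  have hmL : m ≤ L := by
    rw [hm, div_le_iff₀ hM0]
    calc ∑ v ∈ range M, ps R v ≤ ∑ _v ∈ range M, (L : ℝ) := sum_le_sum fun v _ => (hps v).2
      _ = L * M := by rw [sum_const, card_range, nsmul_eq_mul]; ring
  have g1 : ∑ v ∈ range M, (ps R v - m) = 0 := by
    rw [sum_sub_distrib, sum_const, card_range, nsmul_eq_mul, hm', sub_self]
  have g2 : ∑ v ∈ range M, (ps R v - m) * (ps R v - m) ≤ M * ((L : ℝ) ^ 2 / 4) := by
    have e1 : ∑ v ∈ range M, (ps R v - m) * (ps R v - m) =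
        ∑ v ∈ range M, ((ps R v - L / 2) ^ 2 - 2 * (m - L / 2) * (ps R v - m) - (m - L / 2) ^ 2) :=
      sum_congr rfl fun v _ => by ring
    rw [e1, sum_sub_distrib, sum_sub_distrib, ← mul_sum, g1, mul_zero, sub_zero, sum_const, card_range, nsmul_eq_mul]
    have e2 : ∑ v ∈ range M, (ps R v - (L : ℝ) / 2) ^ 2 ≤ ∑ _v ∈ range M, ((L : ℝ) ^ 2 / 4) := by
      refine sum_le_sum fun v _ => ?_
      nlinarith [hps v, mul_nonneg (hps v).1 (sub_nonneg.2 (hps v).2)]
    rw [sum_const, card_range, nsmul_eq_mul] at e2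
    have e3 : 0 ≤ (M : ℝ) * (m - L / 2) ^ 2 := by positivity
    linarith
  have g3 : ∀ v < M, |ps R v - m| ≤ L := by
    intro v _
    rw [abs_le]
    constructor <;> linarith [(hps v).1, (hps v).2]
  have h2 := hM (fun v => ps R v - m) L (Nat.cast_nonneg L) g1 g2 g3
  calc ((Om α M).card : ℝ) * ∑ f ∈ Om α M, (∑ z, (ps R (f z) - m)) ^ 2
      ≤ (Om α M).card * ((Fintype.card α : ℝ) * (L : ℝ) ^ 2 * (Om α M).card) :=
        mul_le_mul_of_nonneg_left h2 (Nat.cast_nonneg _)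
    _ = _ := by ring

end Pool.Agent.H36.LV.T
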