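import Pool.Agent.H36.LV.Stm

/-! # LV-FKG (helper48, adapted from `H82/BK/Four.lean`) -/

set_option autoImplicit false

open Finset
open scoped Classical FinsetFamily

namespace Pool.Agent.H36.LV.T

open Pool.Agent.H36.BK Pool.Agent.H36.BK.LW

theorem fkg_cnt_def (α : Type) [Fintype α] [PartialOrder α] (M : ℕ) (Q : (α → ℕ) → Prop)
    [DecidablePred Q] : cnt α M Q = ((Om α M).filter Q).card := by
  unfold cnt
  congr!

theorem fkg : Pool.Agent.H36.LV.S_fkgL := by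
  intro α _ _ M x y o L s t
  simp only [fkg_cnt_def]
  refine (le_card_infs_mul_card_sups
    ((Om α M).filter (fun f => (f x ∈ Ico o (o + L) ∧ f y ∈ Ico o (o + L)) ∧ f x ≤ s))
    ((Om α M).filter (fun f => (f x ∈ Ico o (o + L) ∧ f y ∈ Ico o (o + L)) ∧ f y ≤ t))).trans ?_
  have hinf : ∀ a b : ℕ, a ∈ Ico o (o + L) → b ∈ Ico o (o + L) → a ⊓ b ∈ Ico o (o + L) := by
    intro a b ha hb
    rw [mem_Ico] at ha hb ⊢
    exact ⟨le_inf ha.1 hb.1, lt_of_le_of_lt inf_le_left ha.2⟩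
  have hsup : ∀ a b : ℕ, a ∈ Ico o (o + L) → b ∈ Ico o (o + L) → a ⊔ b ∈ Ico o (o + L) := by
    intro a b ha hb
    rw [mem_Ico] at ha hb ⊢
    exact ⟨le_trans ha.1 le_sup_left, sup_lt_iff.2 ⟨ha.2, hb.2⟩⟩
  refine Nat.mul_le_mul ?_ ?_
  · refine card_le_card fun h hh => ?_
    obtain ⟨f, hf, g, hg, rfl⟩ := mem_infs.1 hh
    obtain ⟨hf1, ⟨hfx, hfy⟩, hf2⟩ := mem_filter.1 hf
    obtain ⟨hg1, ⟨hgx, hgy⟩, hg2⟩ := mem_filter.1 hg
    obtain ⟨hf3, hf4⟩ := mem_Om.1 hf1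
    obtain ⟨hg3, hg4⟩ := mem_Om.1 hg1
    refine mem_filter.2 ⟨mem_Om.2 ⟨fun z => ?_, fun z z' hz => ?_⟩,
      ⟨hinf _ _ hfx hgx, hinf _ _ hfy hgy⟩, ?_, ?_⟩
    · exact lt_of_le_of_lt (inf_le_right (a := f z) (b := g z)) (hg3 z)
    · exact inf_le_inf (hf4 hz) (hg4 hz)
    · exact (inf_le_left (a := f x) (b := g x)).trans hf2
    · exact (inf_le_right (a := f y) (b := g y)).trans hg2
  · refine card_le_card fun h hh => ?_
    obtain ⟨f, hf, g, hg, rfl⟩ := mem_sups.1 hh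
    obtain ⟨hf1, ⟨hfx, hfy⟩, -⟩ := mem_filter.1 hf
    obtain ⟨hg1, ⟨hgx, hgy⟩, -⟩ := mem_filter.1 hg
    obtain ⟨hf3, hf4⟩ := mem_Om.1 hf1
    obtain ⟨hg3, hg4⟩ := mem_Om.1 hg1
    refine mem_filter.2 ⟨mem_Om.2 ⟨fun z => ?_, fun z z' hz => ?_⟩,
      hsup _ _ hfx hgx, hsup _ _ hfy hgy⟩
    · exact sup_lt_iff.2 ⟨hf3 z, hg3 z⟩
    · exact sup_le_sup (hf4 hz) (hg4 hz)

end Pool.Agent.H36.LV.T
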