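import Pool.Agent.H36.LV.Stm
import Pool.Agent.H36.LX.T.NUM

/-! LV-NUM (helper26), adapted from Pool/Agent/H36/LX/T/NUM.lean (helper33, helper1) -/

set_option autoImplicit false

open Finset Filter Topology
open scoped Classical

namespace Pool.Agent.H36.LV.T

open Pool.Agent.H36.LX Pool.Agent.H36.LX.T Pool.Agent.H36.LC Pool.Agent.H36.BK
  Pool.Agent.H36.BK.LW Pool.Agent.H13R3.WB Pool.Agent.H931R3.Bal

namespace NumLAux

theorem fin (a L Λ K' W : ℝ) (ha1 : 1 ≤ a) (hL0 : 0 ≤ L) (hLΛ : L ≤ Λ) (hΛ1 : 1 ≤ Λ)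
    (hK'0 : 0 < K') (hK'Λ : K' ≤ 8192 * Λ) (hW : 2 ^ 60 * a * Λ ^ 2 ≤ W) :
    143 * Real.log 2 + ((3 * Real.log 2 + 9 / 10 * W) + 5 * Λ + 6 * L) +
      (10200 * a + 2100 * a * L + 3 + L + 1570800 * K' ^ 2 * a) < W := by
  have hlog2' : Real.log 2 < 0.6931471808 := Real.log_two_lt_d9
  have ha0 : 0 < a := by linarith
  have hΛ2 : Λ ≤ Λ ^ 2 := by rw [sq]; exact le_mul_of_one_le_left (by linarith) hΛ1
  have hΛ2' : 1 ≤ Λ ^ 2 := by linarith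
  obtain ⟨Z, hZ⟩ : ∃ Z : ℝ, Z = a * Λ ^ 2 := ⟨_, rfl⟩
  have hZΛ : Λ ≤ Z := by
    rw [hZ]
    calc Λ ≤ Λ ^ 2 := hΛ2
      _ ≤ a * Λ ^ 2 := le_mul_of_one_le_left (by linarith) ha1
  have hZa : a ≤ Z := by
    rw [hZ]
    exact le_mul_of_one_le_right ha0.le hΛ2'
  have hZaL : a * L ≤ Z := by
    rw [hZ]
    exact mul_le_mul_of_nonneg_left (by linarith) ha0.le
  have hK2 : K' ^ 2 * a ≤ 67108864 * Z := by
    have h1 : K' ^ 2 ≤ (8192 * Λ) ^ 2 := pow_le_pow_left₀ hK'0.le hK'Λ 2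
    calc K' ^ 2 * a ≤ (8192 * Λ) ^ 2 * a := mul_le_mul_of_nonneg_right h1 ha0.le
      _ = 67108864 * Z := by rw [hZ]; ring
  have hWZ : 2 ^ 60 * Z ≤ W := by
    rw [hZ]
    linarith
  norm_num at hWZ
  have e1 : 2100 * a * L ≤ 2100 * Z := by linarith
  have e2 : 1570800 * K' ^ 2 * a ≤ 105414603571200 * Z := by
    linarith
  linarith

theorem pw (m : ℕ) (hm : 110 ≤ m) : 2 ^ 54 * (1 + 8 * m) ^ 5 ≤ 2 ^ m := by
  induction m, hm using Nat.le_induction with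
  | base => norm_num
  | succ n hn ih =>
    have h1 : (1 + 8 * (n + 1)) ^ 5 ≤ 2 * (1 + 8 * n) ^ 5 := by
      have h2 : 100 * (1 + 8 * (n + 1)) ≤ 101 * (1 + 8 * n) := by omega
      have h3 : (100 * (1 + 8 * (n + 1))) ^ 5 ≤ (101 * (1 + 8 * n)) ^ 5 :=
        Nat.pow_le_pow_left h2 5
      rw [mul_pow, mul_pow] at h3
      norm_num at h3
      omega
    rw [pow_succ]
    calc 2 ^ 54 * (1 + 8 * (n + 1)) ^ 5 ≤ 2 ^ 54 * (2 * (1 + 8 * n) ^ 5) :=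
          Nat.mul_le_mul_left _ h1
      _ = 2 ^ 54 * (1 + 8 * n) ^ 5 * 2 := by ring
      _ ≤ 2 ^ n * 2 := Nat.mul_le_mul_right _ ih

end NumLAux

theorem num : S_numL := by
  refine ⟨2 ^ 60, by norm_num, ?_⟩
  intro κ w ε hκ hκw hε hε2 hw
  have hκ1 : (1 : ℝ) ≤ κ := by exact_mod_cast hκ
  have hκ0 : (0 : ℝ) < κ := by linarith
  have hw0 : (0 : ℝ) < w := lt_of_lt_of_le (Real.exp_pos _) hw
  have hlog2 : 0.6931471803 < Real.log 2 := Real.log_two_gt_d9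
  have hlog2' : Real.log 2 < 0.6931471808 := Real.log_two_lt_d9
  obtain ⟨L, hL⟩ : ∃ L : ℝ, L = Real.log (1 / ε) := ⟨_, rfl⟩
  obtain ⟨Λ, hΛ⟩ : ∃ Λ : ℝ, Λ = Real.log (2 / ε) := ⟨_, rfl⟩
  have hΛL : Λ = Real.log 2 + L := by
    rw [hΛ, hL, show 2 / ε = 2 * (1 / ε) by ring, Real.log_mul (by norm_num) (by positivity)]
  have hL1 : Real.log 2 ≤ L := by
    rw [hL]
    refine Real.log_le_log (by norm_num) ?_
    rw [le_div_iff₀ hε]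
    linarith
  have hL0 : 0 ≤ L := by linarith
  have hΛ1 : 1 ≤ Λ := by linarith
  have hΛ0 : 0 < Λ := by linarith
  have hεL : 1 / ε = Real.exp L := by rw [hL, Real.exp_log (by positivity)]
  obtain ⟨a, ha⟩ : ∃ a : ℝ, a = Real.exp (L / 6) := ⟨_, rfl⟩
  have ha1 : 1 ≤ a := by rw [ha]; exact Real.one_le_exp (by positivity)
  have ha0 : 0 < a := by linarith
  have ha6 : 1 / ε = a ^ 6 := by
    rw [hεL, ha, ← Real.exp_nat_mul]
    congr 1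
    push_cast
    ring
  have haε : ε ^ (-(1 / 6 : ℝ)) = a := by
    have h1 : Real.log (1 / ε) = -Real.log ε := by rw [one_div, Real.log_inv]
    rw [ha, Real.rpow_def_of_pos hε, hL, h1]
    congr 1
    ring
  rw [haε, ← hΛ] at hw
  -- `l`
  obtain ⟨l, hl1, hl2⟩ : ∃ l : ℕ, a ≤ 2 ^ l ∧ (2 : ℝ) ^ l ≤ 2 * a := by
    obtain ⟨n, hn1, hn2⟩ := exists_nat_pow_near ha1 (by norm_num : (1 : ℝ) < 2)
    exact ⟨n + 1, hn2.le, by rw [pow_succ]; linarith⟩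
  have hε6pos : 0 < ε ^ 6 := by positivity
  have hε6le : ε ^ 6 ≤ 1 := pow_le_one₀ hε.le (by linarith)
  have hε61 : 1 ≤ 1 / ε ^ 6 := by
    rw [le_div_iff₀ hε6pos]
    linarith
  -- `n`
  obtain ⟨n, hn1, hn2⟩ : ∃ n : ℕ, 1 / ε ^ 6 ≤ 2 ^ n ∧ (2 : ℝ) ^ n ≤ 2 * (1 / ε ^ 6) := by
    obtain ⟨n, hn1, hn2⟩ := exists_nat_pow_near hε61 (by norm_num : (1 : ℝ) < 2)
    exact ⟨n + 1, hn2.le, by rw [pow_succ]; linarith⟩
  have hlogε6 : Real.log (1 / ε ^ 6) = 6 * L := by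
    rw [hL, show (1 : ℝ) / ε ^ 6 = (1 / ε) ^ 6 by rw [div_pow, one_pow], Real.log_pow]
    norm_num
  have hnL : (n : ℝ) ≤ 1 + 9 * L := by
    have h1 : (n : ℝ) * Real.log 2 ≤ Real.log (2 * (1 / ε ^ 6)) := by
      rw [← Real.log_pow]
      exact Real.log_le_log (by positivity) hn2
    rw [Real.log_mul (by norm_num) (by positivity), hlogε6] at h1
    by_contra hcon
    push Not at hcon
    have h2 : (1 + 9 * L) * Real.log 2 < n * Real.log 2 :=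
      mul_lt_mul_of_pos_right hcon (by linarith)
    nlinarith
  obtain ⟨m, hm⟩ : ∃ m : ℕ, m = 110 + n := ⟨_, rfl⟩
  obtain ⟨k, hk⟩ : ∃ k : ℕ, k = 2 * m := ⟨_, rfl⟩
  have hkΛ : (k : ℝ) ≤ 222 + 18 * L := by
    rw [hk, hm]
    push_cast
    linarith
  -- `q`
  obtain ⟨q, hq1, hq2⟩ : ∃ q : ℕ, 1 + 4 * k ≤ 2 ^ q ∧ 2 ^ q ≤ 2 * (1 + 4 * k) := by
    have h8 : (1 : ℝ) ≤ 1 + 4 * k := by
      have : (0 : ℝ) ≤ k := Nat.cast_nonneg k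
      linarith
    obtain ⟨n, hn1, hn2⟩ := exists_nat_pow_near h8 (by norm_num : (1 : ℝ) < 2)
    refine ⟨n + 1, by exact_mod_cast hn2.le, ?_⟩
    have h9 : 2 ^ n ≤ 1 + 4 * k := by exact_mod_cast hn1
    rw [pow_succ]
    omega
  obtain ⟨Q, hQ⟩ : ∃ Q : ℝ, Q = 2 ^ q := ⟨_, rfl⟩
  have hQ0 : 0 < Q := by rw [hQ]; positivity
  have hQ1 : 1 ≤ Q := by rw [hQ]; exact one_le_pow₀ (by norm_num)
  have hQk : Q ≤ 2 * (1 + 4 * k) := by
    rw [hQ]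
    exact_mod_cast hq2
  have hQΛ : Q ≤ 2048 * Λ := by linarith
  obtain ⟨K', hK'⟩ : ∃ K' : ℝ, K' = 2 ^ (q + 2) := ⟨_, rfl⟩
  have hK'Q : K' = 4 * Q := by
    rw [hK', hQ, pow_add]
    ring
  have hK'0 : 0 < K' := by rw [hK']; positivity
  have hK'Λ : K' ≤ 8192 * Λ := by rw [hK'Q]; linarith
  -- `r`
  have hq5 : (2 : ℝ) ^ (q + 5) = 32 * Q := by
    rw [hQ, pow_add]
    ring
  obtain ⟨r, hr1, hr2⟩ : ∃ r : ℕ, 32 * Q / ε ≤ 2 ^ r ∧ (2 : ℝ) ^ r ≤ 64 * Q / ε := by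
    have h8 : 1 ≤ 32 * Q / ε := by
      rw [le_div_iff₀ hε]
      linarith
    obtain ⟨n, hn1, hn2⟩ := exists_nat_pow_near h8 (by norm_num : (1 : ℝ) < 2)
    refine ⟨n + 1, hn2.le, ?_⟩
    rw [pow_succ]
    calc (2 : ℝ) ^ n * 2 ≤ 32 * Q / ε * 2 := by gcongr
      _ = 64 * Q / ε := by ring
  -- `lam`, `c`
  obtain ⟨lam, hlam⟩ : ∃ lam : ℝ, lam = ε ^ 2 / (3072 * Q) := ⟨_, rfl⟩
  have hlam0 : 0 < lam := by rw [hlam]; positivity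
  obtain ⟨c, hc⟩ : ∃ c : ℝ, c = lam ^ 3 / (1024 * Q ^ 2) := ⟨_, rfl⟩
  have hc0 : 0 < c := by rw [hc]; positivity
  have hc' : 1 / c = 27 * 2 ^ 40 * (Q ^ 5 / ε ^ 6) := by
    rw [hc, hlam]
    field_simp
    norm_num
  -- `k` large
  have h2m : 2 ^ 54 * (1 + 4 * (k : ℝ)) ^ 5 ≤ 2 ^ m := by
    have h := NumLAux.pw m (by omega)
    have h' : (1 + 4 * (k : ℝ)) = ((1 + 8 * m : ℕ) : ℝ) := by
      rw [hk]
      push_cast
      ring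
    rw [h']
    exact_mod_cast h
  have h2n : 1 / ε ^ 6 ≤ 2 ^ m := by
    refine hn1.trans (pow_le_pow_right₀ (by norm_num) (by omega))
  have h2k : (2 : ℝ) ^ k = 2 ^ m * 2 ^ m := by
    rw [hk, two_mul, pow_add]
  have hQ5 : Q ^ 5 ≤ 32 * (1 + 4 * (k : ℝ)) ^ 5 := by
    calc Q ^ 5 ≤ (2 * (1 + 4 * (k : ℝ))) ^ 5 := pow_le_pow_left₀ hQ0.le hQk 5
      _ = 32 * (1 + 4 * (k : ℝ)) ^ 5 := by ring
  have hck : 16 / 2 ^ k ≤ c := by
    have h1 : 16 * (1 / c) ≤ 2 ^ k := by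
      rw [hc', h2k]
      calc 16 * (27 * 2 ^ 40 * (Q ^ 5 / ε ^ 6)) = (16 * (27 * 2 ^ 40) * Q ^ 5) * (1 / ε ^ 6) := by
            ring
        _ ≤ (2 ^ 54 * (1 + 4 * (k : ℝ)) ^ 5) * 2 ^ m := by
            refine mul_le_mul ?_ h2n (by positivity) (by positivity)
            calc 16 * (27 * 2 ^ 40) * Q ^ 5 ≤ 16 * (27 * 2 ^ 40) * (32 * (1 + 4 * (k : ℝ)) ^ 5) := by
                  gcongr
              _ = (16 * (27 * 2 ^ 40) * 32) * (1 + 4 * (k : ℝ)) ^ 5 := by ring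
              _ ≤ 2 ^ 54 * (1 + 4 * (k : ℝ)) ^ 5 :=
                  mul_le_mul_of_nonneg_right (by norm_num) (by positivity)
        _ ≤ 2 ^ m * 2 ^ m := mul_le_mul_of_nonneg_right h2m (by positivity)
    rw [div_le_iff₀ (by positivity)]
    have h2 : 16 * (1 / c) * c = 16 := by field_simp
    calc (16 : ℝ) = 16 * (1 / c) * c := h2.symm
      _ ≤ 2 ^ k * c := mul_le_mul_of_nonneg_right h1 hc0.le
      _ = c * 2 ^ k := mul_comm _ _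
  -- `128 / ε ≤ 2 ^ k`
  have hεk : 128 / ε ≤ 2 ^ k := by
    have h1 : 1 / ε ≤ 1 / ε ^ 6 := by
      refine one_div_le_one_div_of_le hε6pos ?_
      calc ε ^ 6 = ε * ε ^ 5 := by ring
        _ ≤ ε * 1 := mul_le_mul_of_nonneg_left (pow_le_one₀ hε.le (by linarith)) hε.le
        _ = ε := mul_one _
    have h2 : (128 : ℝ) ≤ 2 ^ m := by
      calc (128 : ℝ) = 2 ^ 7 := by norm_num
        _ ≤ 2 ^ m := pow_le_pow_right₀ (by norm_num) (by omega)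
    rw [h2k]
    calc 128 / ε = 128 * (1 / ε) := by ring
      _ ≤ 2 ^ m * 2 ^ m := mul_le_mul h2 (h1.trans h2n) (by positivity) (by positivity)
  -- `D`
  obtain ⟨X, hX⟩ : ∃ X : ℝ, X = κ ^ 2 * (1 / c) := ⟨_, rfl⟩
  have hX1 : 1 ≤ X := by
    rw [hX, hc']
    have h1 : (1 : ℝ) ≤ κ ^ 2 := one_le_pow₀ hκ1
    have h2 : (1 : ℝ) ≤ Q ^ 5 := one_le_pow₀ hQ1
    have h3 : (1 : ℝ) ≤ Q ^ 5 / ε ^ 6 := by
      rw [div_eq_mul_one_div]
      exact one_le_mul_of_one_le_of_one_le h2 hε61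
    have h4 : (1 : ℝ) ≤ 27 * 2 ^ 40 * (Q ^ 5 / ε ^ 6) := by
      linarith
    exact one_le_mul_of_one_le_of_one_le h1 h4
  have hDX : 2 ^ 20 * (κ : ℝ) ^ 2 / c = 2 ^ 20 * X := by
    rw [hX]
    ring
  refine ⟨l, ⌈2 ^ 20 * (κ : ℝ) ^ 2 / c⌉₊, r, k, q, lam, c, ?_, hlam0.le, hc0, ?_, ?_, ?_, ?_, hεk,
    hq1, ?_⟩
  · exact Nat.one_le_ceil_iff.2 (by positivity)
  · rw [hq5]; exact hr1
  · calc 12 * (2 : ℝ) ^ r * lam ≤ 12 * (64 * Q / ε) * lam := by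
          gcongr
      _ = ε / 4 := by
          rw [hlam]
          field_simp
          norm_num
  · rw [← hK', hK'Q]
    calc 32 * (4 * Q) ^ 2 * (c + 16 / 2 ^ k) ≤ 32 * (4 * Q) ^ 2 * (c + c) := by gcongr
      _ = lam ^ 3 := by
          rw [hc]
          field_simp
          ring
  · have hD : 2 ^ 20 * (κ : ℝ) ^ 2 / c ≤ (⌈2 ^ 20 * (κ : ℝ) ^ 2 / c⌉₊ : ℝ) := Nat.le_ceil _
    rwa [div_le_iff₀ hc0] at hD
  · have hD : (⌈2 ^ 20 * (κ : ℝ) ^ 2 / c⌉₊ : ℝ) < 2 ^ 20 * X + 1 := by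
      refine (Nat.ceil_lt_add_one (by positivity)).trans_le ?_
      rw [hDX]
    have hclu := NumAux.clu_le l K' ε a L hε ha1 ha ha6 hl1 hl2 hL0
    have hclu0 : 0 < clu2 l K' ε := by
      unfold clu2
      positivity
    rw [← hK']
    -- the first factor
    have hQ5Λ : Q ^ 5 ≤ 2 ^ 55 * Λ ^ 5 := by
      calc Q ^ 5 ≤ (2048 * Λ) ^ 5 := pow_le_pow_left₀ hQ0.le hQΛ 5
        _ = 2 ^ 55 * Λ ^ 5 := by ring
    have h12 : 12 * 2 ^ 17 * (κ : ℝ) * (2 * (⌈2 ^ 20 * (κ : ℝ) ^ 2 / c⌉₊ : ℝ) + 1) ≤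
        2 ^ 143 * (κ ^ 3 * Λ ^ 5 * (1 / ε ^ 6)) := by
      have e1 : 2 * (⌈2 ^ 20 * (κ : ℝ) ^ 2 / c⌉₊ : ℝ) + 1 ≤ 2 ^ 22 * X := by
        nlinarith
      calc 12 * 2 ^ 17 * (κ : ℝ) * (2 * (⌈2 ^ 20 * (κ : ℝ) ^ 2 / c⌉₊ : ℝ) + 1)
          ≤ 12 * 2 ^ 17 * (κ : ℝ) * (2 ^ 22 * X) := by gcongr
        _ = (12 * 27 * 2 ^ 79) * (κ ^ 3 * Q ^ 5 * (1 / ε ^ 6)) := by rw [hX, hc']; ring
        _ ≤ (12 * 27 * 2 ^ 79) * (κ ^ 3 * (2 ^ 55 * Λ ^ 5) * (1 / ε ^ 6)) := by gcongr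
        _ = (12 * 27 * 2 ^ 134) * (κ ^ 3 * Λ ^ 5 * (1 / ε ^ 6)) := by ring
        _ ≤ 2 ^ 143 * (κ ^ 3 * Λ ^ 5 * (1 / ε ^ 6)) :=
            mul_le_mul_of_nonneg_right (by norm_num) (by positivity)
    obtain ⟨W, hW⟩ : ∃ W : ℝ, W = Real.log w := ⟨_, rfl⟩
    have hwW : (w : ℝ) = Real.exp W := by rw [hW, Real.exp_log hw0]
    have hWl : 2 ^ 60 * a * Λ ^ 2 ≤ W := by
      rw [hwW, Real.exp_le_exp] at hw
      exact hw
    have hκW : Real.log κ ≤ Real.log 2 + 3 * W / 10 := by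
      have h1 := Real.log_le_log (by positivity) hκw
      rw [Real.log_pow, Real.log_mul (by norm_num) (by positivity), Real.log_pow, Real.log_pow,
        ← hW] at h1
      push_cast at h1
      linarith
    have hκ3 : (κ : ℝ) ^ 3 ≤ Real.exp (3 * Real.log 2 + 9 / 10 * W) := by
      have e1 : (κ : ℝ) ^ 3 = Real.exp (3 * Real.log κ) := by
        rw [show (3 : ℝ) * Real.log κ = ((3 : ℕ) : ℝ) * Real.log κ by norm_num,
          Real.exp_nat_mul, Real.exp_log hκ0]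
      rw [e1, Real.exp_le_exp]
      linarith
    have hΛ5 : Λ ^ 5 ≤ Real.exp (5 * Λ) := by
      have e1 : Real.exp (5 * Λ) = Real.exp Λ ^ 5 := by
        rw [← Real.exp_nat_mul]
        norm_num
      rw [e1]
      refine pow_le_pow_left₀ hΛ0.le ?_ 5
      have := Real.add_one_le_exp Λ
      linarith
    have hε6 : 1 / ε ^ 6 = Real.exp (6 * L) := by
      rw [show (6 : ℝ) * L = ((6 : ℕ) : ℝ) * L by norm_num, Real.exp_nat_mul, ← hεL, one_div,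
        one_div, inv_pow]
    have h143 : (2 : ℝ) ^ 143 = Real.exp (143 * Real.log 2) := by
      rw [show (143 : ℝ) * Real.log 2 = ((143 : ℕ) : ℝ) * Real.log 2 by norm_num,
        Real.exp_nat_mul, Real.exp_log (by norm_num)]
    have hfirst : 2 ^ 143 * ((κ : ℝ) ^ 3 * Λ ^ 5 * (1 / ε ^ 6)) ≤
        Real.exp (143 * Real.log 2 + ((3 * Real.log 2 + 9 / 10 * W) + 5 * Λ + 6 * L)) := by
      rw [Real.exp_add, Real.exp_add (3 * Real.log 2 + 9 / 10 * W + 5 * Λ),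
        Real.exp_add (3 * Real.log 2 + 9 / 10 * W), ← h143, ← hε6]
      gcongr
    calc 12 * 2 ^ 17 * (κ : ℝ) * (2 * (⌈2 ^ 20 * (κ : ℝ) ^ 2 / c⌉₊ : ℝ) + 1) * clu2 l K' ε
        ≤ Real.exp (143 * Real.log 2 + ((3 * Real.log 2 + 9 / 10 * W) + 5 * Λ + 6 * L)) *
          Real.exp (10200 * a + 2100 * a * L + 3 + L + 1570800 * K' ^ 2 * a) :=
          mul_le_mul (h12.trans hfirst) hclu hclu0.le (Real.exp_pos _).le
      _ = Real.exp (143 * Real.log 2 + ((3 * Real.log 2 + 9 / 10 * W) + 5 * Λ + 6 * L) +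
            (10200 * a + 2100 * a * L + 3 + L + 1570800 * K' ^ 2 * a)) :=
          (Real.exp_add _ _).symm
      _ < Real.exp W := by
          rw [Real.exp_lt_exp]
          exact NumLAux.fin a L Λ K' W ha1 hL0 (by linarith) hΛ1 hK'0 hK'Λ hWl
      _ = w := hwW.symm

end Pool.Agent.H36.LV.T
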