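import Pool.Agent.H36.LV.Stm

/-! # LV-RATE (helper32, copy of LX-RATE by helper71) -/

set_option autoImplicit false

open Finset Filter Topology
open scoped Classical

namespace Pool.Agent.H36.LV.T

open Pool.Agent.H13R3.WB Pool.Agent.H931R3.Bal Pool.Agent.H36.LV

theorem rate : S_thmL → S_rateL := by
  rintro ⟨C, hC1, hT⟩
  refine ⟨36 * C, by linarith, ?_⟩
  intro P _ _ A hA hw hP
  obtain ⟨w, hwA⟩ : ∃ w, w = A.card := ⟨_, rfl⟩
  rw [← hwA] at hw hP ⊢
  have hw' : (16 : ℝ) ≤ w := by exact_mod_cast hw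
  have hC0 : 0 < C := by linarith
  have hl2 := Real.log_two_gt_d9
  have hL : (2.7 : ℝ) ≤ Real.log w := by
    have h1 : Real.log 16 ≤ Real.log w := Real.log_le_log (by norm_num) hw'
    have h2 : Real.log 16 = 4 * Real.log 2 := by
      rw [show (16 : ℝ) = 2 ^ 4 by norm_num, Real.log_pow]
      norm_num
    linarith
  have hLL : (0.5 : ℝ) ≤ Real.log (Real.log w) := by
    have h1 : Real.log 2 ≤ Real.log (Real.log w) := Real.log_le_log (by norm_num) (by linarith)
    linarith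
  obtain ⟨L, hLd⟩ : ∃ L, L = Real.log w := ⟨_, rfl⟩
  rw [← hLd] at hL hLL ⊢
  obtain ⟨M, hM⟩ : ∃ M, M = Real.log L := ⟨_, rfl⟩
  rw [← hM] at hLL ⊢
  have hL0 : 0 < L := by linarith
  have hM0 : 0 < M := by linarith
  obtain ⟨q, hq⟩ : ∃ q : ℝ, q = 36 * C * (M ^ 2 / L) := ⟨_, rfl⟩
  rw [← hq]
  have hq0 : 0 < q := by rw [hq]; positivity
  by_cases hq1 : q ^ 6 ≤ 1 / 2
  · refine hT w _ (by positivity) hq1 ?_ P A hA hwA.symm hP
    have h1 : (q ^ 6) ^ (-(1 / 6 : ℝ)) = 1 / q := by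
      rw [← Real.rpow_natCast, ← Real.rpow_mul hq0.le]
      norm_num
      rw [Real.rpow_neg_one]
    rw [h1]
    have hw0 : (0 : ℝ) < w := by linarith
    rw [← Real.le_log_iff_exp_le hw0, ← hLd]
    have h2 : Real.log (2 / q ^ 6) ≤ 6 * M := by
      have h3 : 2 / q ^ 6 ≤ L ^ 6 := by
        rw [div_le_iff₀ (by positivity), ← mul_pow]
        have h4 : L * q = 36 * C * M ^ 2 := by
          rw [hq]
          field_simp
        rw [h4]
        have h5 : (2 : ℝ) ≤ 36 * C * M ^ 2 := by nlinarith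
        calc (2 : ℝ) ≤ 2 ^ 6 := by norm_num
          _ ≤ (36 * C * M ^ 2) ^ 6 := pow_le_pow_left₀ (by norm_num) h5 6
      have h6 := Real.log_le_log (by positivity) h3
      rw [Real.log_pow, ← hM] at h6
      exact_mod_cast h6
    have h3 : 0 ≤ Real.log (2 / q ^ 6) := by
      apply Real.log_nonneg
      rw [le_div_iff₀ (by positivity)]
      linarith
    have h4 : Real.log (2 / q ^ 6) ^ 2 ≤ (6 * M) ^ 2 := pow_le_pow_left₀ h3 h2 2
    have h7 : C * (1 / q) * (6 * M) ^ 2 = L := by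
      rw [hq]
      field_simp
      norm_num
    calc C * (1 / q) * Real.log (2 / q ^ 6) ^ 2 ≤ C * (1 / q) * (6 * M) ^ 2 :=
          mul_le_mul_of_nonneg_left h4 (by positivity)
      _ = L := h7
  · obtain ⟨x, _⟩ := Finset.card_pos.1 (show 0 < A.card by omega)
    have : Nonempty P := ⟨x⟩
    have := balance_nonneg (P := P)
    push Not at hq1
    linarith

end Pool.Agent.H36.LV.T
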