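import Pool.Agent.H36.LV.Stm

/-! # LV-THM (helper40, copy of LX-THM by helper72): the theorem from `S_corey`, `S_clu2` and `S_numL` -/

set_option autoImplicit false

open Finset

namespace Pool.Agent.H36.LV.T

open Pool.Agent.H36.LX Pool.Agent.H36.LC Pool.Agent.H36.BK Pool.Agent.H36.BK.LW
  Pool.Agent.H13R3.WB Pool.Agent.H931R3.Bal

/-- the ratio of the number of the elements and the width -/
theorem exists_kappa3 (n w : ℕ) (hn : 1 ≤ n) (hw : 1 ≤ w) (h : (n : ℝ) ≤ (w : ℝ) ^ (13 / 10 : ℝ)) :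
    ∃ κ : ℕ, 1 ≤ κ ∧ n ≤ κ * w ∧ (κ : ℝ) ^ 10 ≤ 2 ^ 10 * (w : ℝ) ^ 3 := by
  have hw0 : (0 : ℝ) < w := by exact_mod_cast hw
  have hw1 : (1 : ℝ) ≤ w := by exact_mod_cast hw
  have hn0 : (0 : ℝ) < n := by exact_mod_cast hn
  refine ⟨⌈(n : ℝ) / w⌉₊, ?_, ?_, ?_⟩
  · exact Nat.one_le_iff_ne_zero.2 (Nat.ceil_pos.2 (by positivity)).ne'
  · have h1 : (n : ℝ) / w ≤ (⌈(n : ℝ) / w⌉₊ : ℝ) := Nat.le_ceil _
    rw [div_le_iff₀ hw0] at h1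
    exact_mod_cast h1
  · have h1 : (⌈(n : ℝ) / w⌉₊ : ℝ) < (n : ℝ) / w + 1 := Nat.ceil_lt_add_one (by positivity)
    have h2 : (n : ℝ) / w ≤ (w : ℝ) ^ (3 / 10 : ℝ) := by
      rw [div_le_iff₀ hw0]
      calc (n : ℝ) ≤ (w : ℝ) ^ (13 / 10 : ℝ) := h
        _ = (w : ℝ) ^ ((3 / 10 : ℝ) + 1) := by norm_num
        _ = (w : ℝ) ^ (3 / 10 : ℝ) * w := by rw [Real.rpow_add hw0, Real.rpow_one]
    have h3 : (1 : ℝ) ≤ (w : ℝ) ^ (3 / 10 : ℝ) := Real.one_le_rpow hw1 (by norm_num)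
    have h4 : (⌈(n : ℝ) / w⌉₊ : ℝ) ≤ 2 * (w : ℝ) ^ (3 / 10 : ℝ) := by linarith
    calc (⌈(n : ℝ) / w⌉₊ : ℝ) ^ 10 ≤ (2 * (w : ℝ) ^ (3 / 10 : ℝ)) ^ 10 :=
          pow_le_pow_left₀ (by positivity) h4 10
      _ = 2 ^ 10 * ((w : ℝ) ^ (3 / 10 : ℝ)) ^ 10 := by ring
      _ = 2 ^ 10 * (w : ℝ) ^ 3 := by
          rw [← Real.rpow_natCast ((w : ℝ) ^ (3 / 10 : ℝ)) 10, ← Real.rpow_mul hw0.le,
            ← Real.rpow_natCast (w : ℝ) 3]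
          norm_num

theorem thm (hcore : S_corey) (hclu : S_clu2) (hnum : S_numL) : S_thmL := by
  obtain ⟨C, hC, hnum⟩ := hnum
  refine ⟨C, hC, ?_⟩
  intro w ε hε hε2 hw P _ _ A hA hAw hP
  by_contra hcon
  push Not at hcon
  have hw0 : 0 < w := by
    have : (0 : ℝ) < w := lt_of_lt_of_le (Real.exp_pos _) hw
    exact_mod_cast this
  have hne : A.Nonempty := by
    rw [← Finset.card_pos, hAw]
    exact hw0
  have hn : 1 ≤ Fintype.card P := by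
    obtain ⟨x, _⟩ := hne
    exact Fintype.card_pos_iff.2 ⟨x⟩
  obtain ⟨κ, hκ, hnκ, hκ10⟩ := exists_kappa3 _ w hn hw0 hP
  obtain ⟨l, D, r, k, q, lam, c, h1, h2, h3, h4, h5, h6, h7, h8, h9, h10⟩ :=
    hnum κ w ε hκ hκ10 hε hε2 hw
  have hall : ∀ x ∈ A, ∀ y ∈ A, x ≠ y → 2 * ε < |prob P x y - prob P y x| := by
    intro x _ y _ hxy
    by_contra h
    push Not at h
    have hadd := prob_add hxy
    have hb := le_balance x y
    obtain ⟨a1, a2⟩ := abs_le.1 h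
    have h7 : 1 / 2 - ε ≤ min (prob P x y) (prob P y x) := by
      apply le_min <;> linarith
    linarith
  obtain ⟨S, p, J, hJ, hcard, hp, hom⟩ := hcore P κ A ε lam c (3 * l + 1) D r k q hκ hA hne
    (by rw [hAw]; exact hnκ) hε (by linarith) h1 h2 h3 h4 h5 h6 h7 h8 h9 hall
  have hK : (1 : ℝ) ≤ 2 ^ (q + 2) := one_le_pow₀ (by norm_num)
  have hS := hclu P S p J l (2 ^ (q + 2)) ε hJ hK hε (by linarith) hp hom
  rw [hAw] at hcard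
  have h11 : 12 * 2 ^ 17 * (κ : ℝ) * (2 * D + 1) * S.card ≤
      12 * 2 ^ 17 * (κ : ℝ) * (2 * D + 1) * clu2 l (2 ^ (q + 2)) ε :=
    mul_le_mul_of_nonneg_left hS (by positivity)
  exact absurd (lt_of_le_of_lt (hcard.trans h11) h10) (lt_irrefl _)

end Pool.Agent.H36.LV.T
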