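import Pool.Agent.H36.LV.Stm

/-!
# LV-PAIR (helper25): almost independence of pairs inside the window
-/

set_option autoImplicit false

open Finset Filter Topology
open scoped Classical

namespace Pool.Agent.H36.LV.T

open Pool.Agent.H36.LV Pool.Agent.H36.LX Pool.Agent.H36.LC Pool.Agent.H36.BK Pool.Agent.H36.BK.LW
  Pool.Agent.H13R3.WB Pool.Agent.H931R3.Bal

namespace PAIRx

theorem om_abs (L : ℕ) (u v : ℕ → ℝ) :
    |om L u v| ≤ (∑ s ∈ range L, |u s|) * ∑ t ∈ range L, |v t| := by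
  unfold om
  have h1 : |∑ s ∈ range L, ∑ t ∈ range L, if s < t then u s * v t - v s * u t else 0| ≤
      ∑ s ∈ range L, ∑ t ∈ range L, ((if s < t then |u s| * |v t| else 0) +
        (if s < t then |u t| * |v s| else 0)) := by
    refine (abs_sum_le_sum_abs _ _).trans (sum_le_sum fun s _ => ?_)
    refine (abs_sum_le_sum_abs _ _).trans (sum_le_sum fun t _ => ?_)
    split_ifs
    · refine (abs_sub _ _).trans ?_
      rw [abs_mul, abs_mul, mul_comm (|v s|)]
    · simp
  refine h1.trans ?_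
  simp only [sum_add_distrib]
  have h2 : ∑ s ∈ range L, ∑ t ∈ range L, (if s < t then |u t| * |v s| else 0) =
      ∑ s ∈ range L, ∑ t ∈ range L, (if t < s then |u s| * |v t| else 0) := by
    rw [sum_comm]
  rw [h2, ← sum_add_distrib, sum_mul_sum]
  refine sum_le_sum fun s _ => ?_
  rw [← sum_add_distrib]
  refine sum_le_sum fun t _ => ?_
  have h3 : 0 ≤ |u s| * |v t| := by positivity
  rcases lt_trichotomy s t with h | h | h
  · rw [if_pos h, if_neg (by omega)]; linarith
  · rw [if_neg (by omega), if_neg (by omega)]; linarith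
  · rw [if_neg (by omega), if_pos h]; linarith

theorem om_diff (L : ℕ) (p q p' q' : ℕ → ℝ) :
    |om L p q - om L p' q'| ≤ (∑ s ∈ range L, |p s - p' s|) * (∑ t ∈ range L, |q t|) +
      (∑ s ∈ range L, |p' s|) * ∑ t ∈ range L, |q t - q' t| := by
  have e1 : om L p q - om L p' q' = om L (fun s => p s - p' s) q + om L p' (fun t => q t - q' t) := by
    unfold om
    rw [← sum_sub_distrib, ← sum_add_distrib]
    refine sum_congr rfl fun s _ => ?_
    rw [← sum_sub_distrib, ← sum_add_distrib]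
    refine sum_congr rfl fun t _ => ?_
    split_ifs
    · ring
    · ring
  rw [e1]
  exact (abs_add_le _ _).trans (add_le_add (om_abs _ _ _) (om_abs _ _ _))

/-- conditioning changes a probability by at most `2 θ` -/
theorem cond_close {T E θ a a' : ℝ} (hT : 0 < T) (hE : 0 < E) (hET : E ≤ T) (h1 : T - E ≤ 2 * θ * T)
    (h2 : a' ≤ a) (h3 : a ≤ a' + (T - E)) (h4 : 0 ≤ a') (h5 : a' ≤ E) : |a' / E - a / T| ≤ 2 * θ := by
  have h6 : a' / T ≤ a' / E := div_le_div_of_nonneg_left h4 hE hET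
  have h7 : a / T ≤ a' / T + 2 * θ := by
    rw [div_le_iff₀ hT, add_mul, div_mul_cancel₀ _ hT.ne']
    linarith
  have h8 : a' / E ≤ a' / T + 2 * θ := by
    have h9 : a' / E - a' / T ≤ (T - E) / T := by
      have e1 : a' / E - a' / T = a' * (T - E) / (E * T) := by field_simp
      rw [e1, div_le_div_iff₀ (by positivity) hT]
      have : a' * (T - E) ≤ E * (T - E) := mul_le_mul_of_nonneg_right h5 (by linarith)
      nlinarith
    have h10 : (T - E) / T ≤ 2 * θ := by
      rw [div_le_iff₀ hT]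
      exact h1
    linarith
  have h11 : a' / T ≤ a / T := div_le_div_of_nonneg_right h2 hT.le
  rw [abs_le]
  constructor <;> linarith

theorem sum_shift (L o n : ℕ) (g : ℕ → ℝ) : (∑ t ∈ range L, if n = o + t then g t else 0) =
    if n ∈ Ico o (o + L) then g (n - o) else 0 := by
  by_cases h : n ∈ Ico o (o + L)
  · rw [if_pos h, sum_eq_single (n - o)]
    · rw [mem_Ico] at h
      rw [if_pos (by omega)]
    · intro t _ ht
      rw [mem_Ico] at h
      rw [if_neg (by omega)]
    · intro h2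
      rw [mem_Ico] at h
      rw [mem_range] at h2
      omega
  · rw [if_neg h]
    refine sum_eq_zero fun t ht => ?_
    rw [mem_Ico] at h
    rw [mem_range] at ht
    rw [if_neg (by omega)]

/-- the laws in the window -/
theorem law_diff (L : ℕ) (c1 N : ℕ → ℝ) (E X η : ℝ) (h0 : ∀ s, 0 ≤ c1 s) (h1 : ∀ s, c1 s ≤ N s)
    (h2 : ∑ s ∈ range L, c1 s = E) (h3 : ∑ s ∈ range L, N s = X) (hE : 0 < E) (hEX : E ≤ X)
    (h4 : X - E ≤ η * X) : ∑ s ∈ range L, |c1 s / E - N s / X| ≤ 2 * η := by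
  have hX : 0 < X := lt_of_lt_of_le hE hEX
  have h5 : ∀ s, |c1 s / E - N s / X| ≤ (c1 s / E - c1 s / X) + (N s / X - c1 s / X) := by
    intro s
    have g1 : c1 s / X ≤ c1 s / E := div_le_div_of_nonneg_left (h0 s) hE hEX
    have g2 : c1 s / X ≤ N s / X := div_le_div_of_nonneg_right (h1 s) hX.le
    rw [abs_le]
    constructor <;> linarith
  refine (sum_le_sum fun s _ => h5 s).trans ?_
  rw [sum_add_distrib, sum_sub_distrib, sum_sub_distrib, ← sum_div, ← sum_div, ← sum_div, h2, h3,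
    div_self hE.ne', div_self hX.ne']
  have h6 : 1 - η ≤ E / X := by
    rw [le_div_iff₀ hX]
    linarith
  linarith

section

variable (α : Type) [Fintype α] [PartialOrder α]

theorem cnt_sum (M : ℕ) (Q : (α → ℕ) → Prop) :
    (cnt α M Q : ℝ) = ∑ f ∈ Om α M, if Q f then (1 : ℝ) else 0 := by
  rw [Pool.Agent.H36.BK.cnt, card_filter]
  push_cast
  refine sum_congr rfl fun f _ => ?_
  by_cases h : Q f <;> simp [h]

theorem cnt_le (M : ℕ) {Q Q' : (α → ℕ) → Prop} (h : ∀ f, Q f → Q' f) :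
    (cnt α M Q : ℝ) ≤ cnt α M Q' := by
  rw [cnt_sum, cnt_sum]
  refine sum_le_sum fun f _ => ?_
  by_cases h1 : Q f
  · rw [if_pos h1, if_pos (h f h1)]
  · rw [if_neg h1]
    split_ifs <;> norm_num

theorem cnt_congr (M : ℕ) {Q Q' : (α → ℕ) → Prop} (h : ∀ f, Q f ↔ Q' f) :
    (cnt α M Q : ℝ) = cnt α M Q' :=
  le_antisymm (cnt_le α M fun f => (h f).1) (cnt_le α M fun f => (h f).2)

theorem cnt_T (M : ℕ) (Q : (α → ℕ) → Prop) : (cnt α M Q : ℝ) ≤ (Om α M).card := by
  unfold Pool.Agent.H36.BK.cnt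
  exact_mod_cast card_filter_le _ _

/-- `#Q ≤ #(E ∧ Q) + (T - #E)` -/
theorem cnt_cond (M : ℕ) (E Q : (α → ℕ) → Prop) : (cnt α M Q : ℝ) ≤
    cnt α M (fun f => E f ∧ Q f) + ((Om α M).card - cnt α M E) := by
  have h : ((Om α M).card : ℝ) = ∑ f ∈ Om α M, (1 : ℝ) := by simp
  rw [cnt_sum α M Q, cnt_sum α M (fun f => E f ∧ Q f), cnt_sum α M E, h, ← sum_sub_distrib,
    ← sum_add_distrib]
  refine sum_le_sum fun f _ => ?_
  by_cases h1 : E f <;> by_cases h2 : Q f <;> simp [h1, h2]

theorem sum_win (M o L : ℕ) (y : α) (R : (α → ℕ) → Prop) :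
    ∑ t ∈ range L, (cnt α M (fun f => R f ∧ f y = o + t) : ℝ) =
      cnt α M (fun f => R f ∧ f y ∈ Ico o (o + L)) := by
  simp only [cnt_sum]
  rw [sum_comm]
  refine sum_congr rfl fun f _ => ?_
  have h1 := sum_shift L o (f y) (fun _ => if R f then (1 : ℝ) else 0)
  by_cases hR : R f
  · simp only [hR, true_and, if_true] at h1 ⊢
    exact h1
  · simp [hR]

theorem sum_win2 (M o L : ℕ) (x y : α) (Q : ℕ → ℕ → Prop) :
    (∑ s ∈ range L, ∑ t ∈ range L,
      if Q s t then (cnt α M (fun f => f x = o + s ∧ f y = o + t) : ℝ) else 0) =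
      cnt α M (fun f => (f x ∈ Ico o (o + L) ∧ f y ∈ Ico o (o + L)) ∧ Q (f x - o) (f y - o)) := by
  have h3 : ∀ s t, (if Q s t then (cnt α M (fun f => f x = o + s ∧ f y = o + t) : ℝ) else 0) =
      ∑ f ∈ Om α M, if f x = o + s then (if f y = o + t then (if Q s t then (1 : ℝ) else 0) else 0)
        else 0 := by
    intro s t
    rw [cnt_sum]
    by_cases h : Q s t
    · rw [if_pos h]
      refine sum_congr rfl fun f _ => ?_
      by_cases h1 : f x = o + s
      · by_cases h2 : f y = o + t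
        · rw [if_pos ⟨h1, h2⟩, if_pos h1, if_pos h2, if_pos h]
        · rw [if_neg (fun h' => h2 h'.2), if_pos h1, if_neg h2]
      · rw [if_neg (fun h' => h1 h'.1), if_neg h1]
    · rw [if_neg h]
      symm
      refine sum_eq_zero fun f _ => ?_
      by_cases h1 : f x = o + s
      · by_cases h2 : f y = o + t
        · rw [if_pos h1, if_pos h2, if_neg h]
        · rw [if_pos h1, if_neg h2]
      · rw [if_neg h1]
  simp only [h3]
  rw [cnt_sum]
  have h4 : ∀ f ∈ Om α M, (if ((f x ∈ Ico o (o + L) ∧ f y ∈ Ico o (o + L)) ∧ Q (f x - o) (f y - o))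
      then (1 : ℝ) else 0) = ∑ s ∈ range L, ∑ t ∈ range L,
        if f x = o + s then (if f y = o + t then (if Q s t then (1 : ℝ) else 0) else 0) else 0 := by
    intro f _
    have h5 : ∀ s, (∑ t ∈ range L,
        if f x = o + s then (if f y = o + t then (if Q s t then (1 : ℝ) else 0) else 0) else 0) =
        if f x = o + s then
          (∑ t ∈ range L, if f y = o + t then (if Q s t then (1 : ℝ) else 0) else 0) else 0 := by
      intro s
      by_cases h1 : f x = o + s
      · simp only [h1, if_true]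
      · simp only [h1, if_false, sum_const_zero]
    simp only [h5]
    rw [sum_shift L o (f x) (fun s => ∑ t ∈ range L, if f y = o + t then
      (if Q s t then (1 : ℝ) else 0) else 0)]
    by_cases hx : f x ∈ Ico o (o + L)
    · rw [if_pos hx, sum_shift L o (f y) (fun t => if Q (f x - o) t then (1 : ℝ) else 0)]
      by_cases hy : f y ∈ Ico o (o + L)
      · rw [if_pos hy]
        by_cases hQ : Q (f x - o) (f y - o)
        · rw [if_pos ⟨⟨hx, hy⟩, hQ⟩, if_pos hQ]
        · rw [if_neg (fun h' => hQ h'.2), if_neg hQ]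
      · rw [if_neg hy, if_neg (fun h' => hy h'.1.2)]
    · rw [if_neg hx, if_neg (fun h' => hx h'.1.1)]
  symm
  calc _ = ∑ f ∈ Om α M, (if ((f x ∈ Ico o (o + L) ∧ f y ∈ Ico o (o + L)) ∧ Q (f x - o) (f y - o))
        then (1 : ℝ) else 0) := by congr!
    _ = ∑ f ∈ Om α M, ∑ s ∈ range L, ∑ t ∈ range L,
        (if f x = o + s then (if f y = o + t then (if Q s t then (1 : ℝ) else 0) else 0) else 0) :=
      sum_congr rfl h4
    _ = _ := by
      rw [sum_comm]
      refine sum_congr rfl fun s _ => ?_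
      rw [sum_comm]

end

end PAIRx

open PAIRx in
theorem pair : S_fkgL → S_near → S_pairL := by
  intro hF hN α _ _ M o L R b x y K c lam θ hM hL hLR hR hb hK hc hθ hθ8 hpx hpy hwx hwy hH hlam hl
  have hL0 : (0 : ℝ) < L := by exact_mod_cast (by omega : 0 < L)
  have hT : 0 < (Om α M).card := by
    rcases Nat.eq_zero_or_pos (Om α M).card with h | h
    · exfalso
      have e1 : ∀ j, pm α M x j = 0 := by
        intro j
        simp [pm, h]
      simp only [e1, sum_const_zero] at hwx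
      linarith
    · exact h
  set T : ℝ := ((Om α M).card : ℝ) with hTdef
  have hT0 : 0 < T := Nat.cast_pos.2 hT
  set W : Finset ℕ := Ico o (o + L) with hW
  -- the masses of the window
  have hwin : ∀ z : α, ∑ t ∈ range L, (cnt α M (fun f => f z = o + t) : ℝ) =
      cnt α M (fun f => f z ∈ W) := by
    intro z
    have h1 := sum_win α M o L z (fun _ => True)
    simp only [true_and] at h1
    exact h1
  have hpw : ∀ z : α, ∑ t ∈ range L, pm α M z (o + t) = (cnt α M (fun f => f z ∈ W) : ℝ) / T := by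
    intro z
    rw [← hwin z, sum_div]
    rfl
  set X : ℝ := (cnt α M (fun f => f x ∈ W) : ℝ) with hX
  set Y : ℝ := (cnt α M (fun f => f y ∈ W) : ℝ) with hY
  set E : ℝ := (cnt α M (fun f => f x ∈ W ∧ f y ∈ W) : ℝ) with hE
  have hX1 : (1 - θ) * T ≤ X := by
    rw [hpw x, le_div_iff₀ hT0] at hwx
    exact hwx
  have hY1 : (1 - θ) * T ≤ Y := by
    rw [hpw y, le_div_iff₀ hT0] at hwy
    exact hwy
  have hXT : X ≤ T := cnt_T α M _
  have hYT : Y ≤ T := cnt_T α M _
  have hET : E ≤ T := cnt_T α M _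
  have hEX : E ≤ X := cnt_le α M fun f h => h.1
  have hEY : E ≤ Y := cnt_le α M fun f h => h.2
  have hXE : X - E ≤ T - Y := by
    have h1 := cnt_cond α M (fun f => f y ∈ W) (fun f => f x ∈ W)
    have h2 : (cnt α M (fun f => f y ∈ W ∧ f x ∈ W) : ℝ) = E := cnt_congr α M fun f => and_comm
    rw [h2] at h1
    linarith
  have hYE : Y - E ≤ T - X := by
    have h1 := cnt_cond α M (fun f => f x ∈ W) (fun f => f y ∈ W)
    linarith
  have hE1 : T - E ≤ 2 * θ * T := by nlinarith
  have hE0 : 3 / 4 * T ≤ E := by nlinarith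
  have hEp : 0 < E := by linarith
  have hcl : ∀ Q : (α → ℕ) → Prop,
      |(cnt α M (fun f => (f x ∈ W ∧ f y ∈ W) ∧ Q f) : ℝ) / E - cnt α M Q / T| ≤ 2 * θ := by
    intro Q
    refine cond_close hT0 hEp hET hE1 (cnt_le α M fun f h => h.2) ?_ (Nat.cast_nonneg _)
      (cnt_le α M fun f h => h.1)
    have h1 := cnt_cond α M (fun f => f x ∈ W ∧ f y ∈ W) Q
    exact h1
  -- the conditional law
  set q : ℕ → ℕ → ℝ := fun s t => (cnt α M (fun f => f x = o + s ∧ f y = o + t) : ℝ) / E with hq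
  have hgen : ∀ (Q : ℕ → ℕ → Prop) [∀ s t, Decidable (Q s t)],
      (∑ s ∈ range L, ∑ t ∈ range L, if Q s t then q s t else 0) =
      (cnt α M (fun f => (f x ∈ W ∧ f y ∈ W) ∧ Q (f x - o) (f y - o)) : ℝ) / E := by
    intro Q _
    rw [← sum_win2 α M o L x y Q, sum_div]
    refine sum_congr rfl fun s _ => ?_
    rw [sum_div]
    refine sum_congr rfl fun t _ => ?_
    simp only [hq]
    by_cases h : Q s t <;> simp [h]
  have htot : ∑ s ∈ range L, ∑ t ∈ range L, q s t = 1 := by
    have h1 := hgen (fun _ _ => True)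
    simp only [if_true, and_true] at h1
    rw [h1, div_self hEp.ne']
  have hq0 : ∀ s t, 0 ≤ q s t := fun s t => by
    simp only [hq]
    positivity
  have hmx : ∀ s, ∑ t ∈ range L, q s t =
      (cnt α M (fun f => f x = o + s ∧ f y ∈ W) : ℝ) / E := by
    intro s
    simp only [hq]
    rw [← sum_div, sum_win α M o L y (fun f => f x = o + s)]
  have hmy : ∀ t, ∑ s ∈ range L, q s t =
      (cnt α M (fun f => f y = o + t ∧ f x ∈ W) : ℝ) / E := by
    intro t
    simp only [hq]
    rw [← sum_div, ← sum_win α M o L x (fun f => f y = o + t)]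
    congr 1
    refine sum_congr rfl fun s _ => ?_
    exact cnt_congr α M fun f => and_comm
  have hTE : T ≤ 2 * E := by linarith
  have hmar : ∀ (z : α) (s : ℕ) (Q : (α → ℕ) → Prop), (∀ j, pm α M z j * L ≤ K) →
      (cnt α M (fun f => f z = o + s ∧ Q f) : ℝ) / E ≤ 2 * K / L := by
    intro z s Q hz
    have h1 : (cnt α M (fun f => f z = o + s ∧ Q f) : ℝ) ≤ pm α M z (o + s) * T := by
      have h2 : pm α M z (o + s) * T = (cnt α M (fun f => f z = o + s) : ℝ) := by
        unfold pm Nx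
        rw [div_mul_cancel₀ _ hT0.ne']
      rw [h2]
      exact cnt_le α M fun f h => h.1
    rw [div_le_div_iff₀ hEp hL0]
    have h3 := hz (o + s)
    calc (cnt α M (fun f => f z = o + s ∧ Q f) : ℝ) * L ≤ pm α M z (o + s) * T * L :=
          mul_le_mul_of_nonneg_right h1 hL0.le
      _ = (pm α M z (o + s) * L) * T := by ring
      _ ≤ K * T := mul_le_mul_of_nonneg_right h3 hT0.le
      _ ≤ 2 * K * E := by nlinarith
  -- distribution functions
  have hcx : ∀ s, s < L → ∑ a ∈ range (s + 1), ∑ t ∈ range L, q a t =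
      (cnt α M (fun f => (f x ∈ W ∧ f y ∈ W) ∧ f x ≤ o + s) : ℝ) / E := by
    intro s hs
    have h1 := hgen (fun a _ => a ≤ s)
    have h2 : (cnt α M (fun f => (f x ∈ W ∧ f y ∈ W) ∧ f x - o ≤ s) : ℝ) =
        cnt α M (fun f => (f x ∈ W ∧ f y ∈ W) ∧ f x ≤ o + s) :=
      cnt_congr α M fun f => by
        rw [hW, mem_Ico, mem_Ico]
        omega
    rw [h2] at h1
    rw [← h1]
    have h3 : (∑ a ∈ range L, ∑ t ∈ range L, if a ≤ s then q a t else 0) =
        ∑ a ∈ range L, if a ≤ s then ∑ t ∈ range L, q a t else 0 := by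
      refine sum_congr rfl fun a _ => ?_
      split_ifs
      · rfl
      · simp
    rw [h3, ← sum_filter]
    refine sum_congr ?_ fun _ _ => rfl
    ext a
    simp only [mem_range, mem_filter]
    omega
  have hcy : ∀ t, t < L → ∑ b ∈ range (t + 1), ∑ s ∈ range L, q s b =
      (cnt α M (fun f => (f x ∈ W ∧ f y ∈ W) ∧ f y ≤ o + t) : ℝ) / E := by
    intro t ht
    have h1 := hgen (fun _ b => b ≤ t)
    have h2 : (cnt α M (fun f => (f x ∈ W ∧ f y ∈ W) ∧ f y - o ≤ t) : ℝ) =
        cnt α M (fun f => (f x ∈ W ∧ f y ∈ W) ∧ f y ≤ o + t) :=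
      cnt_congr α M fun f => by
        rw [hW, mem_Ico, mem_Ico]
        omega
    rw [h2] at h1
    rw [← h1]
    have h3 : (∑ a ∈ range L, ∑ b ∈ range L, if b ≤ t then q a b else 0) =
        ∑ b ∈ range L, if b ≤ t then ∑ s ∈ range L, q s b else 0 := by
      rw [sum_comm]
      refine sum_congr rfl fun b _ => ?_
      split_ifs
      · rfl
      · simp
    rw [h3, ← sum_filter]
    refine sum_congr ?_ fun _ _ => rfl
    ext a
    simp only [mem_range, mem_filter]
    omega
  have hcxy : ∀ s t, s < L → t < L → ∑ a ∈ range (s + 1), ∑ b ∈ range (t + 1), q a b =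
      (cnt α M (fun f => (f x ∈ W ∧ f y ∈ W) ∧ f x ≤ o + s ∧ f y ≤ o + t) : ℝ) / E := by
    intro s t hs ht
    have h1 := hgen (fun a b => a ≤ s ∧ b ≤ t)
    have h0 : (cnt α M (fun f => (f x ∈ W ∧ f y ∈ W) ∧ f x - o ≤ s ∧ f y - o ≤ t) : ℝ) =
        cnt α M (fun f => (f x ∈ W ∧ f y ∈ W) ∧ f x ≤ o + s ∧ f y ≤ o + t) :=
      cnt_congr α M fun f => by
        rw [hW, mem_Ico, mem_Ico]
        omega
    rw [h0] at h1
    rw [← h1]
    have h2 : ∀ a ∈ range L, (∑ b ∈ range L, if a ≤ s ∧ b ≤ t then q a b else 0) =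
        if a ≤ s then ∑ b ∈ range (t + 1), q a b else 0 := by
      intro a _
      by_cases ha : a ≤ s
      · simp only [ha, true_and, if_true]
        rw [← sum_filter]
        refine sum_congr ?_ fun _ _ => rfl
        ext b
        simp only [mem_range, mem_filter]
        omega
      · simp [ha]
    rw [sum_congr rfl h2, ← sum_filter]
    refine sum_congr ?_ fun _ _ => rfl
    ext a
    simp only [mem_range, mem_filter]
    omega
  have hhh : ∀ s t, s < L → t < L → hh L q s t =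
      (cnt α M (fun f => (f x ∈ W ∧ f y ∈ W) ∧ f x ≤ o + s ∧ f y ≤ o + t) : ℝ) / E -
      (cnt α M (fun f => (f x ∈ W ∧ f y ∈ W) ∧ f x ≤ o + s) : ℝ) / E *
        ((cnt α M (fun f => (f x ∈ W ∧ f y ∈ W) ∧ f y ≤ o + t) : ℝ) / E) := by
    intro s t hs ht
    unfold hh
    have e1 : ∑ a ∈ range (s + 1), ∑ b ∈ range (t + 1), (q a b - (∑ b' ∈ range L, q a b') *
        (∑ a' ∈ range L, q a' b)) = (∑ a ∈ range (s + 1), ∑ b ∈ range (t + 1), q a b) -
          (∑ a ∈ range (s + 1), ∑ b' ∈ range L, q a b') *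
            ∑ b ∈ range (t + 1), ∑ a' ∈ range L, q a' b := by
      rw [sum_mul_sum, ← sum_sub_distrib]
      refine sum_congr rfl fun a _ => ?_
      rw [sum_sub_distrib]
    rw [e1, hcxy s t hs ht, hcx s hs, hcy t ht]
  have hnn : ∀ s t, s < L → t < L → 0 ≤ hh L q s t := by
    intro s t hs ht
    rw [hhh s t hs ht, sub_nonneg, div_mul_div_comm, div_le_div_iff₀ (by positivity) hEp]
    have h1 := hF α M x y o L (o + s) (o + t)
    have h2 : ((cnt α M (fun f => (f x ∈ W ∧ f y ∈ W) ∧ f x ≤ o + s) : ℝ)) *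
        (cnt α M (fun f => (f x ∈ W ∧ f y ∈ W) ∧ f y ≤ o + t) : ℝ) ≤
        (cnt α M (fun f => (f x ∈ W ∧ f y ∈ W) ∧ f x ≤ o + s ∧ f y ≤ o + t) : ℝ) * E := by
      have h3 := (Nat.cast_le (α := ℝ)).2 h1
      push_cast at h3
      exact h3
    calc _ ≤ (cnt α M (fun f => (f x ∈ W ∧ f y ∈ W) ∧ f x ≤ o + s ∧ f y ≤ o + t) : ℝ) * E * E :=
          mul_le_mul_of_nonneg_right h2 hEp.le
      _ = _ := by ring
  have hup : ∀ s t, s < L → t < L → hh L q s t ≤ Hs α M x y (o + s) (o + t) / T ^ 2 + 6 * θ := by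
    intro s t hs ht
    rw [hhh s t hs ht]
    have a1 := abs_le.1 (hcl (fun f => f x ≤ o + s ∧ f y ≤ o + t))
    have a2 := abs_le.1 (hcl (fun f => f x ≤ o + s))
    have a3 := abs_le.1 (hcl (fun f => f y ≤ o + t))
    set u := (cnt α M (fun f => (f x ∈ W ∧ f y ∈ W) ∧ f x ≤ o + s) : ℝ) / E with hu
    set v := (cnt α M (fun f => (f x ∈ W ∧ f y ∈ W) ∧ f y ≤ o + t) : ℝ) / E with hv
    set u' := (cnt α M (fun f => f x ≤ o + s) : ℝ) / T with hu'
    set v' := (cnt α M (fun f => f y ≤ o + t) : ℝ) / T with hv'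
    have e1 : Hs α M x y (o + s) (o + t) / T ^ 2 =
        (cnt α M (fun f => f x ≤ o + s ∧ f y ≤ o + t) : ℝ) / T - u' * v' := by
      unfold Pool.Agent.H36.BK.Hs
      rw [hu', hv', ← hTdef, sub_div, pow_two, mul_div_mul_right _ _ hT0.ne', div_mul_div_comm]
    rw [e1]
    have b1 : v ≤ 1 := by
      rw [hv, div_le_one hEp]
      exact cnt_le α M fun f h => h.1
    have b2 : 0 ≤ v := by
      rw [hv]
      positivity
    have b3 : u' ≤ 1 := by
      rw [hu', div_le_one hT0]
      exact cnt_T α M _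
    have b4 : 0 ≤ u' := by
      rw [hu']
      positivity
    have b5 : u' * v' - u * v ≤ 4 * θ := by
      have e2 : u' * v' - u * v = (u' - u) * v + u' * (v' - v) := by ring
      rw [e2]
      nlinarith
    linarith
  -- the sum
  have hsum : ∑ s ∈ range L, ∑ t ∈ range L, hh L q s t ≤ (c + 8 * θ) * (L : ℝ) ^ 2 := by
    have h1 : ∑ s ∈ range L, ∑ t ∈ range L, Hs α M x y (o + s) (o + t) ≤
        c * (L : ℝ) ^ 2 * T ^ 2 := by
      refine le_trans (le_of_eq ?_) hH
      rw [hW, sum_Ico_eq_sum_range, Nat.add_sub_cancel_left]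
      refine sum_congr rfl fun s _ => ?_
      rw [sum_Ico_eq_sum_range, Nat.add_sub_cancel_left]
    calc ∑ s ∈ range L, ∑ t ∈ range L, hh L q s t
        ≤ ∑ s ∈ range L, ∑ t ∈ range L, (Hs α M x y (o + s) (o + t) / T ^ 2 + 6 * θ) :=
          sum_le_sum fun s hs => sum_le_sum fun t ht => hup s t (mem_range.1 hs) (mem_range.1 ht)
      _ = (∑ s ∈ range L, ∑ t ∈ range L, Hs α M x y (o + s) (o + t)) / T ^ 2 +
          6 * θ * (L : ℝ) ^ 2 := by
          simp only [sum_add_distrib, sum_const, card_range, nsmul_eq_mul, ← sum_div]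
          ring
      _ ≤ c * (L : ℝ) ^ 2 + 6 * θ * (L : ℝ) ^ 2 := by
          have h2 : (∑ s ∈ range L, ∑ t ∈ range L, Hs α M x y (o + s) (o + t)) / T ^ 2 ≤
              c * (L : ℝ) ^ 2 := by
            rw [div_le_iff₀ (by positivity)]
            exact h1
          linarith
      _ ≤ (c + 8 * θ) * (L : ℝ) ^ 2 := by nlinarith [sq_nonneg (L : ℝ)]
  have hres := hN L R b q (2 * K) (c + 8 * θ) lam hL hLR hR hb (by linarith) (by linarith) hq0 htot
    (fun s _ => by rw [hmx]; exact hmar x s _ hpx) (fun t _ => by rw [hmy]; exact hmar y t _ hpy)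
    hnn hsum hlam hl
  have g1 := hgen (fun s t => s < t)
  have g2 := hgen (fun s t => t < s)
  have g3 : (cnt α M (fun f => (f x ∈ W ∧ f y ∈ W) ∧ f x - o < f y - o) : ℝ) =
      cnt α M (fun f => (f x ∈ W ∧ f y ∈ W) ∧ f x < f y) :=
    cnt_congr α M fun f => by
      rw [hW, mem_Ico, mem_Ico]
      omega
  have g4 : (cnt α M (fun f => (f x ∈ W ∧ f y ∈ W) ∧ f y - o < f x - o) : ℝ) =
      cnt α M (fun f => (f x ∈ W ∧ f y ∈ W) ∧ f y < f x) :=
    cnt_congr α M fun f => by
      rw [hW, mem_Ico, mem_Ico]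
      omega
  rw [g3] at g1
  rw [g4] at g2
  have g1' : (∑ s ∈ range L, ∑ t ∈ range L, if s < t then q s t else 0) =
      (cnt α M (fun f => (f x ∈ W ∧ f y ∈ W) ∧ f x < f y) : ℝ) / E := by
    exact g1
  have g2' : (∑ s ∈ range L, ∑ t ∈ range L, if t < s then q s t else 0) =
      (cnt α M (fun f => (f x ∈ W ∧ f y ∈ W) ∧ f y < f x) : ℝ) / E := by
    exact g2
  rw [g1', g2'] at hres
  have k1 := abs_le.1 (hcl (fun f => f x < f y))
  have k2 := abs_le.1 (hcl (fun f => f y < f x))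
  -- the marginals
  have hηx : X - E ≤ 3 / 2 * θ * X := by nlinarith
  have hηy : Y - E ≤ 3 / 2 * θ * Y := by nlinarith
  have hX0 : 0 < X := lt_of_lt_of_le hEp hEX
  have hY0 : 0 < Y := lt_of_lt_of_le hEp hEY
  have m1 := law_diff L (fun s => (cnt α M (fun f => f x = o + s ∧ f y ∈ W) : ℝ))
    (fun s => (cnt α M (fun f => f x = o + s) : ℝ)) E X (3 / 2 * θ) (fun s => Nat.cast_nonneg _)
    (fun s => cnt_le α M fun f h => h.1) (by
      have h1 := htot
      simp only [hmx] at h1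
      rw [← sum_div, div_eq_one_iff_eq hEp.ne'] at h1
      exact h1) (hwin x) hEp hEX hηx
  have m2 := law_diff L (fun s => (cnt α M (fun f => f y = o + s ∧ f x ∈ W) : ℝ))
    (fun s => (cnt α M (fun f => f y = o + s) : ℝ)) E Y (3 / 2 * θ) (fun s => Nat.cast_nonneg _)
    (fun s => cnt_le α M fun f h => h.1) (by
      have h1 := htot
      rw [sum_comm] at h1
      simp only [hmy] at h1
      rw [← sum_div, div_eq_one_iff_eq hEp.ne'] at h1
      exact h1) (hwin y) hEp hEY hηy
  have hwd : ∀ (z : α) (Z : ℝ), Z = (cnt α M (fun f => f z ∈ W) : ℝ) → 0 < Z → ∀ s, s < L →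
      winD o L (pm α M z) s = (cnt α M (fun f => f z = o + s) : ℝ) / Z := by
    intro z Z hZ hZ0 s hs
    unfold winD
    rw [if_pos hs, hpw z, ← hZ]
    unfold pm Nx
    rw [div_div_div_cancel_right₀ hT0.ne']
  have hd := om_diff L (fun s => ∑ t ∈ range L, q s t) (fun t => ∑ s ∈ range L, q s t)
    (winD o L (pm α M x)) (winD o L (pm α M y))
  have d1 : ∑ s ∈ range L, |(∑ t ∈ range L, q s t) - winD o L (pm α M x) s| ≤ 2 * (3 / 2 * θ) := by
    refine le_trans (le_of_eq (sum_congr rfl fun s hs => ?_)) m1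
    rw [hmx, hwd x X rfl hX0 s (mem_range.1 hs)]
  have d2 : ∑ t ∈ range L, |(∑ s ∈ range L, q s t) - winD o L (pm α M y) t| ≤ 2 * (3 / 2 * θ) := by
    refine le_trans (le_of_eq (sum_congr rfl fun s hs => ?_)) m2
    rw [hmy, hwd y Y rfl hY0 s (mem_range.1 hs)]
  have d3 : ∑ t ∈ range L, |∑ s ∈ range L, q s t| = 1 := by
    rw [← htot, sum_comm]
    refine sum_congr rfl fun t _ => ?_
    exact abs_of_nonneg (sum_nonneg fun s _ => hq0 s t)
  have d4 : ∑ s ∈ range L, |winD o L (pm α M x) s| = 1 := by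
    have h1 : ∑ s ∈ range L, |winD o L (pm α M x) s| =
        ∑ s ∈ range L, (cnt α M (fun f => f x = o + s) : ℝ) / X := by
      refine sum_congr rfl fun s hs => ?_
      rw [hwd x X rfl hX0 s (mem_range.1 hs)]
      exact abs_of_nonneg (by positivity)
    rw [h1, ← sum_div, hwin x, div_self hX0.ne']
  rw [d3, d4] at hd
  have hd2 := abs_le.1 (hd.trans (by linarith :
    (∑ s ∈ range L, |(∑ t ∈ range L, q s t) - winD o L (pm α M x) s|) * 1 +
      1 * (∑ t ∈ range L, |(∑ s ∈ range L, q s t) - winD o L (pm α M y) t|) ≤ 6 * θ))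
  have hres2 := abs_le.1 hres
  have e5 : 2 * (2 * K) / (R : ℝ) = 4 * K / R := by ring
  rw [e5] at hres2
  rw [sub_div, abs_le]
  constructor <;> linarith [hd2.1, hd2.2, hres2.1, hres2.2, k1.1, k1.2, k2.1, k2.2]

end Pool.Agent.H36.LV.T
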