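import Pool.Agent.H36.LV.Stm
import Pool.Agent.H34.BL.Win

/-! LV-PAIR (helper68): almost independence of a pair inside the window -/

set_option autoImplicit false

open Finset Filter Topology
open scoped Classical

namespace Pool.Agent.H36.LV.T

open Pool.Agent.H36.LX Pool.Agent.H36.LC Pool.Agent.H36.BK Pool.Agent.H36.BK.LW
  Pool.Agent.H13R3.WB Pool.Agent.H931R3.Bal Pool.Agent.H34.BL.Win

namespace PAIR68

variable (α : Type) [Fintype α] [PartialOrder α]

/-- probability of an event -/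
noncomputable def PP (M : ℕ) (Q : (α → ℕ) → Prop) : ℝ := (cnt α M Q : ℝ) / (Om α M).card

theorem PP_eq (M : ℕ) (Q : (α → ℕ) → Prop) :
    PP α M Q = ∑ f ∈ Om α M, if Q f then (1 : ℝ) / (Om α M).card else 0 := by
  rw [PP, BK.cnt, card_filter, Nat.cast_sum, sum_div]
  refine sum_congr rfl fun f _ => ?_
  by_cases h : Q f <;> simp [h]

theorem tau0 (M : ℕ) : (0 : ℝ) ≤ 1 / (Om α M).card := by positivity

theorem PP0 (M : ℕ) (Q : (α → ℕ) → Prop) : 0 ≤ PP α M Q := by
  unfold PP
  positivity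

theorem PP_mono (M : ℕ) (Q Q' : (α → ℕ) → Prop) (h : ∀ f, Q f → Q' f) :
    PP α M Q ≤ PP α M Q' := by
  rw [PP_eq, PP_eq]
  refine sum_le_sum fun f _ => ?_
  by_cases hf : Q f
  · rw [if_pos hf, if_pos (h f hf)]
  · rw [if_neg hf]
    split_ifs
    · exact tau0 α M
    · exact le_rfl

theorem PP_congr (M : ℕ) (Q Q' : (α → ℕ) → Prop) (h : ∀ f, Q f ↔ Q' f) :
    PP α M Q = PP α M Q' :=
  le_antisymm (PP_mono α M _ _ fun f => (h f).1) (PP_mono α M _ _ fun f => (h f).2)

theorem PP_true (M : ℕ) (hT : 0 < (Om α M).card) : PP α M (fun _ => True) = 1 := by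
  unfold PP BK.cnt
  simp only [filter_true]
  exact div_self (by exact_mod_cast hT.ne')

theorem PP1 (M : ℕ) (hT : 0 < (Om α M).card) (Q : (α → ℕ) → Prop) : PP α M Q ≤ 1 := by
  rw [← PP_true α M hT]
  exact PP_mono α M _ _ fun _ _ => trivial

theorem PP_add (M : ℕ) (hT : 0 < (Om α M).card) (E A : (α → ℕ) → Prop) :
    PP α M A ≤ PP α M (fun f => E f ∧ A f) + (1 - PP α M E) := by
  rw [← PP_true α M hT, PP_eq, PP_eq, PP_eq, PP_eq, ← sum_sub_distrib, ← sum_add_distrib]
  refine sum_le_sum fun f _ => ?_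
  have h0 := tau0 α M
  by_cases h1 : E f <;> by_cases h2 : A f <;> simp [h1, h2]

/-- counting by the values in the window -/
theorem PP_win (M o L : ℕ) (x y : α) (Q : ℕ → ℕ → Prop) [∀ s t, Decidable (Q s t)] :
    PP α M (fun f => (f x ∈ Ico o (o + L) ∧ f y ∈ Ico o (o + L)) ∧ Q (f x) (f y)) =
      ∑ s ∈ range L, ∑ t ∈ range L,
        if Q (o + s) (o + t) then PP α M (fun f => f x = o + s ∧ f y = o + t) else 0 := by
  obtain ⟨τ, hτ⟩ : ∃ τ : ℝ, τ = 1 / (Om α M).card := ⟨_, rfl⟩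
  have h3 : ∀ s t, (if Q (o + s) (o + t) then PP α M (fun f => f x = o + s ∧ f y = o + t) else 0) =
      ∑ f ∈ Om α M, if (f x = o + s ∧ f y = o + t) then (if Q (f x) (f y) then τ else 0)
        else 0 := by
    intro s t
    rw [PP_eq, ← hτ]
    by_cases h : Q (o + s) (o + t)
    · rw [if_pos h]
      refine sum_congr rfl fun f _ => ?_
      by_cases hf : f x = o + s ∧ f y = o + t
      · rw [if_pos hf, if_pos hf, hf.1, hf.2, if_pos h]
      · rw [if_neg hf, if_neg hf]
    · rw [if_neg h]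
      symm
      refine sum_eq_zero fun f _ => ?_
      by_cases hf : f x = o + s ∧ f y = o + t
      · rw [if_pos hf, hf.1, hf.2, if_neg h]
      · rw [if_neg hf]
  simp only [h3]
  rw [PP_eq, ← hτ]
  have h4 : ∀ f ∈ Om α M, (if (f x ∈ Ico o (o + L) ∧ f y ∈ Ico o (o + L)) ∧ Q (f x) (f y)
      then τ else 0) =
      ∑ s ∈ range L, ∑ t ∈ range L,
        if (f x = o + s ∧ f y = o + t) then (if Q (f x) (f y) then τ else 0) else 0 := by
    intro f _
    by_cases hE : f x ∈ Ico o (o + L) ∧ f y ∈ Ico o (o + L)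
    · have hx := mem_Ico.1 hE.1
      have hy := mem_Ico.1 hE.2
      rw [sum_eq_single (f x - o)]
      · rw [sum_eq_single (f y - o)]
        · have h5 : f x = o + (f x - o) ∧ f y = o + (f y - o) := ⟨by omega, by omega⟩
          rw [if_pos h5]
          by_cases hQ : Q (f x) (f y)
          · rw [if_pos ⟨hE, hQ⟩, if_pos hQ]
          · rw [if_neg (fun h => hQ h.2), if_neg hQ]
        · intro t _ ht
          rw [if_neg]
          rintro ⟨_, h⟩
          exact ht (by omega)
        · intro h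
          exact absurd (mem_range.2 (by omega)) h
      · intro s _ hs
        refine sum_eq_zero fun t _ => ?_
        rw [if_neg]
        rintro ⟨h, _⟩
        exact hs (by omega)
      · intro h
        exact absurd (mem_range.2 (by omega)) h
    · rw [if_neg (fun h => hE h.1)]
      symm
      refine sum_eq_zero fun s hs => sum_eq_zero fun t ht => ?_
      rw [if_neg]
      rintro ⟨h1, h2⟩
      rw [mem_range] at hs ht
      exact hE ⟨mem_Ico.2 (by omega), mem_Ico.2 (by omega)⟩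
  refine Eq.trans (sum_congr rfl fun f hf => Eq.trans ?_ (h4 f hf)) ?_
  · split_ifs <;> rfl
  rw [sum_comm]
  refine sum_congr rfl fun s _ => ?_
  rw [sum_comm]

theorem PP_marg (M o L : ℕ) (y : α) (Q : (α → ℕ) → Prop) :
    ∑ t ∈ range L, PP α M (fun f => Q f ∧ f y = o + t) ≤ PP α M Q := by
  obtain ⟨τ, hτ⟩ : ∃ τ : ℝ, τ = 1 / (Om α M).card := ⟨_, rfl⟩
  have hτ0 : 0 ≤ τ := hτ ▸ tau0 α M
  simp only [PP_eq]
  rw [← hτ, sum_comm]
  refine sum_le_sum fun f _ => ?_
  by_cases hQ : Q f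
  · rw [if_pos hQ]
    by_cases h : ∃ t ∈ range L, f y = o + t
    · obtain ⟨t, ht, h⟩ := h
      rw [sum_eq_single t]
      · rw [if_pos ⟨hQ, h⟩]
      · intro t' _ h'
        rw [if_neg]
        rintro ⟨_, h2⟩
        exact h' (by omega)
      · intro h'
        exact absurd ht h'
    · rw [sum_eq_zero]
      · exact hτ0
      · intro t ht
        rw [if_neg]
        rintro ⟨_, h2⟩
        exact h ⟨t, ht, h2⟩
  · rw [if_neg hQ]
    refine (sum_eq_zero fun t _ => ?_).le
    rw [if_neg]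
    rintro ⟨h, _⟩
    exact hQ h

theorem PP_one (M o L : ℕ) (x : α) :
    ∑ t ∈ range L, PP α M (fun f => f x = o + t) = PP α M (fun f => f x ∈ Ico o (o + L)) := by
  obtain ⟨τ, hτ⟩ : ∃ τ : ℝ, τ = 1 / (Om α M).card := ⟨_, rfl⟩
  simp only [PP_eq]
  rw [← hτ, sum_comm]
  refine sum_congr rfl fun f _ => ?_
  by_cases h : f x ∈ Ico o (o + L)
  · have hx := mem_Ico.1 h
    rw [if_pos h, sum_eq_single (f x - o)]
    · rw [if_pos (by omega)]
    · intro t _ ht
      rw [if_neg (by omega)]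
    · intro h'
      exact absurd (mem_range.2 (by omega)) h'
  · rw [if_neg h]
    refine sum_eq_zero fun t ht => ?_
    rw [mem_range] at ht
    rw [if_neg]
    intro h1
    exact h (mem_Ico.2 (by omega))

omit [Fintype α] [PartialOrder α] in
theorem cond_bd (z e : ℝ) (h0 : 0 ≤ z) (h1 : z ≤ e) (he : 0 < e) (he1 : e ≤ 1) :
    z ≤ z / e ∧ z / e ≤ z + (1 - e) ∧ z / e ≤ 1 ∧ 0 ≤ z / e := by
  refine ⟨?_, ?_, ?_, by positivity⟩
  · rw [le_div_iff₀ he]
    nlinarith
  · rw [div_le_iff₀ he]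
    nlinarith [mul_nonneg (sub_nonneg.2 he1) (sub_nonneg.2 h1)]
  · rw [div_le_one he]
    exact h1

theorem real_id (p a b T : ℝ) (hT : 0 < T) :
    (p * T - a * b) / T ^ 2 = p / T - a / T * (b / T) := by
  field_simp

/-- change of the normalisation -/
theorem l1 (L : ℕ) (a b : ℕ → ℝ) (hb : ∀ s ∈ range L, 0 ≤ b s) (hab : ∀ s ∈ range L, b s ≤ a s)
    (A W : ℝ) (hA : ∑ s ∈ range L, a s = A) (hW : ∑ s ∈ range L, b s = W) (hW0 : 0 < W) :
    ∑ s ∈ range L, |b s / W - a s / A| ≤ 2 * (A - W) / A := by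
  have hWA : W ≤ A := by
    rw [← hA, ← hW]
    exact sum_le_sum hab
  have hA0 : 0 < A := lt_of_lt_of_le hW0 hWA
  have h1 : ∀ s ∈ range L, |b s / W - a s / A| ≤ b s * (1 / W - 1 / A) + (a s - b s) / A := by
    intro s hs
    have e1 : b s / W - a s / A = b s * (1 / W - 1 / A) - (a s - b s) / A := by ring
    have h2 : 0 ≤ b s * (1 / W - 1 / A) := by
      refine mul_nonneg (hb s hs) ?_
      rw [sub_nonneg]
      exact one_div_le_one_div_of_le hW0 hWA
    have h3 : 0 ≤ (a s - b s) / A := div_nonneg (sub_nonneg.2 (hab s hs)) hA0.le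
    rw [e1, abs_le]
    constructor <;> linarith
  refine (sum_le_sum h1).trans ?_
  rw [sum_add_distrib, ← sum_mul, ← sum_div, sum_sub_distrib, hA, hW]
  have : W * (1 / W - 1 / A) + (A - W) / A = 2 * (A - W) / A := by
    field_simp
    ring
  exact this.le

end PAIR68

open PAIR68 in
theorem pair : S_fkgL → S_near → S_pairL := by
  intro hF hN α _ _ M o L R b x y K c lam θ hM hL hLR hR hb hK hc hθ0 hθ1 hpx hpy hwx hwy hH
    hlam hl
  have hT : 0 < (Om α M).card := by
    rcases Nat.eq_zero_or_pos (Om α M).card with hT | hT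
    · exfalso
      have : ∑ t ∈ range L, pm α M x (o + t) = 0 := sum_eq_zero fun t _ => by simp [pm, hT]
      rw [this] at hwx
      linarith
    · exact hT
  have hT0 : (0 : ℝ) < ((Om α M).card : ℝ) := Nat.cast_pos.2 hT
  have hL0 : (0 : ℝ) < L := by exact_mod_cast (by omega : 0 < L)
  have hpm : ∀ (z : α) (j : ℕ), pm α M z j = PP α M (fun f => f z = j) := fun _ _ => rfl
  -- the window
  obtain ⟨Ax, hAx⟩ : ∃ Ax, Ax = ∑ t ∈ range L, pm α M x (o + t) := ⟨_, rfl⟩
  obtain ⟨Ay, hAy⟩ : ∃ Ay, Ay = ∑ t ∈ range L, pm α M y (o + t) := ⟨_, rfl⟩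
  rw [← hAx] at hwx
  rw [← hAy] at hwy
  have hAx' : Ax = PP α M (fun f => f x ∈ Ico o (o + L)) := by
    rw [hAx, ← PP_one]
    rfl
  have hAy' : Ay = PP α M (fun f => f y ∈ Ico o (o + L)) := by
    rw [hAy, ← PP_one]
    rfl
  obtain ⟨e, he⟩ : ∃ e, e = PP α M (fun f => f x ∈ Ico o (o + L) ∧ f y ∈ Ico o (o + L)) :=
    ⟨_, rfl⟩
  have hAx1 : Ax ≤ 1 := by rw [hAx']; exact PP1 α M hT _
  have hAy1 : Ay ≤ 1 := by rw [hAy']; exact PP1 α M hT _
  have he1 : e ≤ 1 := by rw [he]; exact PP1 α M hT _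
  have hadd : Ax + Ay - 1 ≤ e := by
    have := PP_add α M hT (fun f => f x ∈ Ico o (o + L)) (fun f => f y ∈ Ico o (o + L))
    rw [← hAx', ← hAy', ← he] at this
    linarith
  have heθ : 1 - 2 * θ ≤ e := by linarith
  have he34 : 3 / 4 ≤ e := by linarith
  have he0 : 0 < e := by linarith
  have heAx : e ≤ Ax := by
    rw [he, hAx']; exact PP_mono α M _ _ fun f h => h.1
  have heAy : e ≤ Ay := by
    rw [he, hAy']; exact PP_mono α M _ _ fun f h => h.2
  -- conditional probabilities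
  have hcond : ∀ A : (α → ℕ) → Prop,
      PP α M A - 2 * θ ≤ PP α M (fun f => (f x ∈ Ico o (o + L) ∧ f y ∈ Ico o (o + L)) ∧ A f) / e ∧
      PP α M (fun f => (f x ∈ Ico o (o + L) ∧ f y ∈ Ico o (o + L)) ∧ A f) / e ≤
        PP α M A + 2 * θ ∧
      PP α M (fun f => (f x ∈ Ico o (o + L) ∧ f y ∈ Ico o (o + L)) ∧ A f) / e ≤ 1 ∧
      0 ≤ PP α M (fun f => (f x ∈ Ico o (o + L) ∧ f y ∈ Ico o (o + L)) ∧ A f) / e := by
    intro A
    obtain ⟨z, hz⟩ : ∃ z, z = PP α M (fun f => (f x ∈ Ico o (o + L) ∧ f y ∈ Ico o (o + L)) ∧ A f) :=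
      ⟨_, rfl⟩
    have z0 : 0 ≤ z := hz ▸ PP0 α M _
    have z1 : z ≤ e := by rw [hz, he]; exact PP_mono α M _ _ fun f h => h.1
    have z2 : z ≤ PP α M A := by rw [hz]; exact PP_mono α M _ _ fun f h => h.2
    have z3 : PP α M A ≤ z + (1 - e) := by
      have := PP_add α M hT (fun f => f x ∈ Ico o (o + L) ∧ f y ∈ Ico o (o + L)) A
      rw [← he, ← hz] at this
      exact this
    obtain ⟨c1, c2, c3, c4⟩ := cond_bd z e z0 z1 he0 he1
    rw [← hz]
    exact ⟨by linarith, by linarith, c3, c4⟩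
  obtain ⟨q, hq⟩ : ∃ q : ℕ → ℕ → ℝ, q = fun s t =>
      PP α M (fun f => f x = o + s ∧ f y = o + t) / e := ⟨_, rfl⟩
  -- generic
  have hgen : ∀ (Q : ℕ → ℕ → Prop) [∀ s t, Decidable (Q s t)], (∑ s ∈ range L, ∑ t ∈ range L,
      if Q (o + s) (o + t) then q s t else 0) =
      PP α M (fun f => (f x ∈ Ico o (o + L) ∧ f y ∈ Ico o (o + L)) ∧ Q (f x) (f y)) / e := by
    intro Q _
    rw [PP_win α M o L x y Q, sum_div]
    refine sum_congr rfl fun s _ => ?_
    rw [sum_div]
    refine sum_congr rfl fun t _ => ?_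
    simp only [hq]
    split_ifs <;> simp
  have hq0 : ∀ s t, 0 ≤ q s t := fun s t => by
    simp only [hq]
    exact div_nonneg (PP0 α M _) he0.le
  have htot : ∑ s ∈ range L, ∑ t ∈ range L, q s t = 1 := by
    have := hgen (fun _ _ => True)
    simp only [if_true, and_true] at this
    rw [this, ← he, div_self he0.ne']
  -- the marginals
  obtain ⟨m1, hm1⟩ : ∃ m1 : ℕ → ℝ, m1 = fun s => ∑ t ∈ range L, q s t := ⟨_, rfl⟩
  obtain ⟨m2, hm2⟩ : ∃ m2 : ℕ → ℝ, m2 = fun t => ∑ s ∈ range L, q s t := ⟨_, rfl⟩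
  have hm1' : ∀ s, ∑ t ∈ range L, q s t = m1 s := fun s => by rw [hm1]
  have hm2' : ∀ t, ∑ s ∈ range L, q s t = m2 t := fun t => by rw [hm2]
  obtain ⟨b1, hb1⟩ : ∃ b1 : ℕ → ℝ, b1 = fun s => ∑ t ∈ range L,
      PP α M (fun f => f x = o + s ∧ f y = o + t) := ⟨_, rfl⟩
  obtain ⟨b2, hb2⟩ : ∃ b2 : ℕ → ℝ, b2 = fun t => ∑ s ∈ range L,
      PP α M (fun f => f x = o + s ∧ f y = o + t) := ⟨_, rfl⟩
  have hmb1 : ∀ s, m1 s = b1 s / e := by
    intro s
    simp only [hm1, hb1, hq, sum_div]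
  have hmb2 : ∀ s, m2 s = b2 s / e := by
    intro s
    simp only [hm2, hb2, hq, sum_div]
  have hb1le : ∀ s, b1 s ≤ pm α M x (o + s) := by
    intro s
    simp only [hb1, hpm]
    exact PP_marg α M o L y (fun f => f x = o + s)
  have hb2le : ∀ t, b2 t ≤ pm α M y (o + t) := by
    intro t
    simp only [hb2, hpm]
    refine le_trans (le_of_eq ?_) (PP_marg α M o L x (fun f => f y = o + t))
    refine sum_congr rfl fun s _ => ?_
    exact PP_congr α M _ _ fun f => and_comm
  have hb10 : ∀ s, 0 ≤ b1 s := fun s => by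
    simp only [hb1]
    exact sum_nonneg fun t _ => PP0 α M _
  have hb20 : ∀ s, 0 ≤ b2 s := fun s => by
    simp only [hb2]
    exact sum_nonneg fun t _ => PP0 α M _
  have hm1s : ∑ s ∈ range L, m1 s = 1 := by
    rw [← htot, hm1]
  have hm2s : ∑ s ∈ range L, m2 s = 1 := by
    rw [← htot, hm2, sum_comm]
  have hb1s : ∑ s ∈ range L, b1 s = e := by
    have : ∑ s ∈ range L, b1 s / e = 1 := by
      rw [← hm1s]
      exact sum_congr rfl fun s _ => (hmb1 s).symm
    rw [← sum_div, div_eq_one_iff_eq he0.ne'] at this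
    exact this
  have hb2s : ∑ s ∈ range L, b2 s = e := by
    have : ∑ s ∈ range L, b2 s / e = 1 := by
      rw [← hm2s]
      exact sum_congr rfl fun s _ => (hmb2 s).symm
    rw [← sum_div, div_eq_one_iff_eq he0.ne'] at this
    exact this
  have hm10 : ∀ s, 0 ≤ m1 s := fun s => by rw [hmb1]; exact div_nonneg (hb10 s) he0.le
  have hm20 : ∀ s, 0 ≤ m2 s := fun s => by rw [hmb2]; exact div_nonneg (hb20 s) he0.le
  have hbound : ∀ u : ℝ, 0 ≤ u → u * L ≤ K → u / e ≤ 2 * K / L := by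
    intro u hu huK
    rw [div_le_div_iff₀ he0 hL0]
    nlinarith
  have hm1K : ∀ s, m1 s ≤ 2 * K / L := fun s => by
    rw [hmb1]
    refine hbound _ (hb10 s) (le_trans ?_ (hpx (o + s)))
    exact mul_le_mul_of_nonneg_right (hb1le s) hL0.le
  have hm2K : ∀ s, m2 s ≤ 2 * K / L := fun s => by
    rw [hmb2]
    refine hbound _ (hb20 s) (le_trans ?_ (hpy (o + s)))
    exact mul_le_mul_of_nonneg_right (hb2le s) hL0.le
  -- distribution functions
  have hcx : ∀ s, s < L → ∑ a ∈ range (s + 1), m1 a =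
      PP α M (fun f => (f x ∈ Ico o (o + L) ∧ f y ∈ Ico o (o + L)) ∧ f x ≤ o + s) / e := by
    intro s hs
    have h1 := hgen (fun a _ => a ≤ o + s)
    rw [← h1]
    have : ∀ a ∈ range L, (∑ t ∈ range L, if o + a ≤ o + s then q a t else 0) =
        if a ≤ s then m1 a else 0 := by
      intro a _
      by_cases h : a ≤ s
      · have h' : o + a ≤ o + s := by omega
        simp only [if_pos h, if_pos h']
        exact hm1' a
      · have h' : ¬ o + a ≤ o + s := by omega
        simp only [if_neg h, if_neg h', sum_const_zero]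
    rw [sum_congr rfl this, ← sum_filter]
    refine sum_congr ?_ fun _ _ => rfl
    ext a
    simp only [mem_range, mem_filter]
    omega
  have hcy : ∀ t, t < L → ∑ a ∈ range (t + 1), m2 a =
      PP α M (fun f => (f x ∈ Ico o (o + L) ∧ f y ∈ Ico o (o + L)) ∧ f y ≤ o + t) / e := by
    intro t ht
    have h1 := hgen (fun _ a => a ≤ o + t)
    rw [← h1, sum_comm]
    have : ∀ a ∈ range L, (∑ s ∈ range L, if o + a ≤ o + t then q s a else 0) =
        if a ≤ t then m2 a else 0 := by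
      intro a _
      by_cases h : a ≤ t
      · have h' : o + a ≤ o + t := by omega
        simp only [if_pos h, if_pos h']
        exact hm2' a
      · have h' : ¬ o + a ≤ o + t := by omega
        simp only [if_neg h, if_neg h', sum_const_zero]
    rw [sum_congr rfl this, ← sum_filter]
    refine sum_congr ?_ fun _ _ => rfl
    ext a
    simp only [mem_range, mem_filter]
    omega
  have hcxy : ∀ s t, s < L → t < L → ∑ a ∈ range (s + 1), ∑ b ∈ range (t + 1), q a b =
      PP α M (fun f => (f x ∈ Ico o (o + L) ∧ f y ∈ Ico o (o + L)) ∧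
        f x ≤ o + s ∧ f y ≤ o + t) / e := by
    intro s t hs ht
    have h1 := hgen (fun a b => a ≤ o + s ∧ b ≤ o + t)
    rw [← h1]
    have h2 : ∀ a ∈ range L, (∑ b ∈ range L, if o + a ≤ o + s ∧ o + b ≤ o + t then q a b else 0) =
        if a ≤ s then ∑ b ∈ range (t + 1), q a b else 0 := by
      intro a _
      by_cases ha : a ≤ s
      · have ha' : o + a ≤ o + s := by omega
        simp only [ha', true_and, if_pos ha]
        rw [← sum_filter]
        refine sum_congr ?_ fun _ _ => rfl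
        ext b
        simp only [mem_range, mem_filter]
        omega
      · have ha' : ¬ o + a ≤ o + s := by omega
        simp only [ha', false_and, if_neg ha, if_false, sum_const_zero]
    rw [sum_congr rfl h2, ← sum_filter]
    refine sum_congr ?_ fun _ _ => rfl
    ext a
    simp only [mem_range, mem_filter]
    omega
  have hhh : ∀ s t, s < L → t < L → hh L q s t =
      PP α M (fun f => (f x ∈ Ico o (o + L) ∧ f y ∈ Ico o (o + L)) ∧
        f x ≤ o + s ∧ f y ≤ o + t) / e -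
      PP α M (fun f => (f x ∈ Ico o (o + L) ∧ f y ∈ Ico o (o + L)) ∧ f x ≤ o + s) / e *
      (PP α M (fun f => (f x ∈ Ico o (o + L) ∧ f y ∈ Ico o (o + L)) ∧ f y ≤ o + t) / e) := by
    intro s t hs ht
    unfold hh
    simp only [hm1', hm2']
    have e1 : ∑ a ∈ range (s + 1), ∑ b ∈ range (t + 1), (q a b - m1 a * m2 b) =
        (∑ a ∈ range (s + 1), ∑ b ∈ range (t + 1), q a b) -
          (∑ a ∈ range (s + 1), m1 a) * ∑ b ∈ range (t + 1), m2 b := by
      rw [sum_mul_sum, ← sum_sub_distrib]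
      refine sum_congr rfl fun a _ => ?_
      rw [sum_sub_distrib]
    rw [e1, hcxy s t hs ht, hcx s hs, hcy t ht]
  have hhh0 : ∀ s t, s < L → t < L → 0 ≤ hh L q s t := by
    intro s t hs ht
    rw [hhh s t hs ht]
    have h1 := hF α M x y o L (o + s) (o + t)
    have h2 : (cnt α M (fun f => (f x ∈ Ico o (o + L) ∧ f y ∈ Ico o (o + L)) ∧ f x ≤ o + s) : ℝ) *
        cnt α M (fun f => (f x ∈ Ico o (o + L) ∧ f y ∈ Ico o (o + L)) ∧ f y ≤ o + t) ≤
        cnt α M (fun f => (f x ∈ Ico o (o + L) ∧ f y ∈ Ico o (o + L)) ∧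
          f x ≤ o + s ∧ f y ≤ o + t) *
        cnt α M (fun f => f x ∈ Ico o (o + L) ∧ f y ∈ Ico o (o + L)) := by
      exact_mod_cast h1
    have h3 : PP α M (fun f => (f x ∈ Ico o (o + L) ∧ f y ∈ Ico o (o + L)) ∧ f x ≤ o + s) *
        PP α M (fun f => (f x ∈ Ico o (o + L) ∧ f y ∈ Ico o (o + L)) ∧ f y ≤ o + t) ≤
        PP α M (fun f => (f x ∈ Ico o (o + L) ∧ f y ∈ Ico o (o + L)) ∧
          f x ≤ o + s ∧ f y ≤ o + t) * e := by
      rw [he]
      unfold PP
      rw [div_mul_div_comm, div_mul_div_comm]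
      exact div_le_div_of_nonneg_right h2 (mul_nonneg hT0.le hT0.le)
    rw [sub_nonneg, div_mul_div_comm, div_le_div_iff₀ (mul_pos he0 he0) he0]
    nlinarith
  have hhh1 : ∀ s t, s < L → t < L → hh L q s t ≤
      Hs α M x y (o + s) (o + t) / ((Om α M).card : ℝ) ^ 2 + 6 * θ := by
    intro s t hs ht
    rw [hhh s t hs ht]
    have e1 : Hs α M x y (o + s) (o + t) / ((Om α M).card : ℝ) ^ 2 =
        PP α M (fun f => f x ≤ o + s ∧ f y ≤ o + t) -
          PP α M (fun f => f x ≤ o + s) * PP α M (fun f => f y ≤ o + t) := by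
      unfold BK.Hs PP
      exact real_id _ _ _ _ hT0
    rw [e1]
    obtain ⟨a1, a2, a3, a4⟩ := hcond (fun f => f x ≤ o + s)
    obtain ⟨b1, b2, b3, b4⟩ := hcond (fun f => f y ≤ o + t)
    obtain ⟨c1, c2, c3, c4⟩ := hcond (fun f => f x ≤ o + s ∧ f y ≤ o + t)
    have u0 := PP0 α M (fun f => f x ≤ o + s)
    have u1 := PP1 α M hT (fun f => f x ≤ o + s)
    generalize PP α M (fun f => (f x ∈ Ico o (o + L) ∧ f y ∈ Ico o (o + L)) ∧ f x ≤ o + s) / e
      = F1 at *
    generalize PP α M (fun f => (f x ∈ Ico o (o + L) ∧ f y ∈ Ico o (o + L)) ∧ f y ≤ o + t) / e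
      = F2 at *
    generalize PP α M (fun f => f x ≤ o + s) = u at *
    generalize PP α M (fun f => f y ≤ o + t) = v at *
    have h1 : u * (v - F2) ≤ 1 * (2 * θ) := by
      rcases le_or_gt (v - F2) 0 with h | h
      · nlinarith
      · exact mul_le_mul u1 (by linarith) h.le (by norm_num)
    have h2 : F2 * (u - F1) ≤ 1 * (2 * θ) := by
      rcases le_or_gt (u - F1) 0 with h | h
      · nlinarith
      · exact mul_le_mul b3 (by linarith) h.le (by norm_num)
    nlinarith
  have hres := hN L R b q (2 * K) (c + 8 * θ) lam hL hLR hR hb (by linarith) (by linarith) hq0 htot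
    (fun s _ => by rw [hm1']; exact hm1K s) (fun t _ => by rw [hm2']; exact hm2K t)
    hhh0
    (by
      have e1 : ∑ s ∈ range L, ∑ t ∈ range L, hh L q s t ≤
          ∑ s ∈ range L, ∑ t ∈ range L,
            (Hs α M x y (o + s) (o + t) / ((Om α M).card : ℝ) ^ 2 + 6 * θ) :=
        sum_le_sum fun s hs => sum_le_sum fun t ht =>
          hhh1 s t (mem_range.1 hs) (mem_range.1 ht)
      have e2 : ∑ s ∈ Ico o (o + L), ∑ t ∈ Ico o (o + L), Hs α M x y s t =
          ∑ s ∈ range L, ∑ t ∈ range L, Hs α M x y (o + s) (o + t) := by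
        rw [sum_Ico_eq_sum_range]
        simp only [sum_Ico_eq_sum_range, add_tsub_cancel_left]
      rw [e2] at hH
      refine e1.trans ?_
      simp only [sum_add_distrib, sum_const, card_range, nsmul_eq_mul, ← sum_div]
      have e3 : (∑ s ∈ range L, ∑ t ∈ range L, Hs α M x y (o + s) (o + t)) /
          ((Om α M).card : ℝ) ^ 2 ≤ c * (L : ℝ) ^ 2 := by
        rw [div_le_iff₀ (pow_pos hT0 2)]
        exact hH
      have e4 : 0 ≤ θ * (L : ℝ) ^ 2 := mul_nonneg hθ0 (pow_nonneg hL0.le 2)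
      nlinarith)
    hlam hl
  simp only [hm1', hm2'] at hres
  have g1 := hgen (fun s t => s < t)
  have g2 := hgen (fun s t => t < s)
  simp only [add_lt_add_iff_left] at g1 g2
  rw [g1, g2] at hres
  -- the windows
  have hws : ∀ z : α, ∀ s ∈ range L, winD o L (pm α M z) s =
      pm α M z (o + s) / ∑ t ∈ range L, pm α M z (o + t) := by
    intro z s hs
    unfold winD
    rw [if_pos (mem_range.1 hs)]
  have d1 : ∑ s ∈ range L, |m1 s - winD o L (pm α M x) s| ≤ 3 * θ := by
    have h1 := l1 L (fun s => pm α M x (o + s)) b1 (fun s _ => hb10 s) (fun s _ => hb1le s) Ax e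
      hAx.symm hb1s he0
    have h2 : ∑ s ∈ range L, |m1 s - winD o L (pm α M x) s| =
        ∑ s ∈ range L, |b1 s / e - pm α M x (o + s) / Ax| := by
      refine sum_congr rfl fun s hs => ?_
      rw [hmb1, hws x s hs, ← hAx]
    rw [h2]
    refine h1.trans ?_
    rw [div_le_iff₀ (by linarith)]
    nlinarith
  have d2 : ∑ s ∈ range L, |m2 s - winD o L (pm α M y) s| ≤ 3 * θ := by
    have h1 := l1 L (fun s => pm α M y (o + s)) b2 (fun s _ => hb20 s) (fun s _ => hb2le s) Ay e
      hAy.symm hb2s he0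
    have h2 : ∑ s ∈ range L, |m2 s - winD o L (pm α M y) s| =
        ∑ s ∈ range L, |b2 s / e - pm α M y (o + s) / Ay| := by
      refine sum_congr rfl fun s hs => ?_
      rw [hmb2, hws y s hs, ← hAy]
    rw [h2]
    refine h1.trans ?_
    rw [div_le_iff₀ (by linarith)]
    nlinarith
  have s2 : ∑ s ∈ range L, |m2 s| = 1 := by
    rw [← hm2s]
    exact sum_congr rfl fun s _ => abs_of_nonneg (hm20 s)
  have s1 : ∑ s ∈ range L, |winD o L (pm α M x) s| = 1 := by
    have h1 : ∀ s ∈ range L, |winD o L (pm α M x) s| = pm α M x (o + s) / Ax := by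
      intro s hs
      rw [hws x s hs, ← hAx, abs_of_nonneg]
      exact div_nonneg (by rw [hpm]; exact PP0 α M _) (by linarith)
    rw [sum_congr rfl h1, ← sum_div, ← hAx, div_self (by linarith)]
  have d3 := BB_diff L m1 m2 (winD o L (pm α M x)) (winD o L (pm α M y))
  rw [s1, s2, ← om_eq, ← om_eq] at d3
  obtain ⟨l1, l2, _, _⟩ := hcond (fun f => f x < f y)
  obtain ⟨k1, k2, _, _⟩ := hcond (fun f => f y < f x)
  have e0 : ((cnt α M (fun f => f x < f y) : ℝ) - cnt α M (fun f => f y < f x)) /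
      (Om α M).card = PP α M (fun f => f x < f y) - PP α M (fun f => f y < f x) := by
    unfold PP
    rw [sub_div]
  rw [e0]
  have e4 : 2 * (2 * K) / R = 4 * K / R := by ring
  rw [e4] at hres
  have d4 : |om L m1 m2 - om L (winD o L (pm α M x)) (winD o L (pm α M y))| ≤ 6 * θ := by
    linarith
  rw [abs_le] at hres d4 ⊢
  constructor
  · linarith [hres.1, hres.2, d4.1, d4.2]
  · linarith [hres.1, hres.2, d4.1, d4.2]

end Pool.Agent.H36.LV.T
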